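import Mathlib
import Pool.Agent.H98.Code.Defs

set_option autoImplicit false

/-!
Rooted codes with sides (MP_a46c6f_co): what is used of a permutation graph without removable circuit
in the proof that the graph of a rooted minor is a tree.
-/

namespace Pool.Agent.H44.FQ

open Pool.Agent.H98.Code

variable {V : Type}

/-- a word which is `0` at `e`, has no letter `z`, does not split and contains no smaller word -/
structure Good (L : Submodule (ZMod 2) (V → K)) (e : V) (u : V → K) : Prop where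
  mem : u ∈ L
  ne : u ≠ 0
  zfree : ZFree u
  root : u e = 0
  unsplit : ∀ g, ¬ Splits L u g
  ker : ∀ k ∈ L, k e = 0 → (∀ v, k v = 0 ∨ k v = u v) → k = 0 ∨ k = u

/-- `Y u` is the set of the points of the side of `u` which avoids `e` -/
structure Sided (L : Submodule (ZMod 2) (V → K)) (e : V) (Y : (V → K) → Finset V) : Prop where
  nonempty : ∀ u, Good L e u → (Y u).Nonempty
  zero : ∀ u, Good L e u → ∀ y ∈ Y u, u y = 0 ∧ y ≠ e
  part : ∀ u, Good L e u → ∀ v ∈ L, (v e).1 = 0 → (∀ i, u i ≠ 0 → v i = 0 ∨ v i = u i) →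
    ∃ v' ∈ L, (∀ i ∈ Y u, v' i = v i) ∧ (∀ i, u i = 0 → i ∉ Y u → v' i = 0) ∧
      (∀ i, u i ≠ 0 → v' i = 0 ∨ v' i = u i)
  mono : ∀ u u', Good L e u → Good L e u' → (∀ i, u i = 0 → i ∉ Y u → u' i = 0) →
    (∀ i, u i ≠ 0 → u' i = 0 ∨ u' i = u i) → Y u' ⊆ Y u
  om : ∀ w ∈ L, (∀ v, (w v).1 = 1) → ∀ k ∈ L, k e = 0 → (∀ v, k v = 0 ∨ k v = w v) → k = 0

end Pool.Agent.H44.FQ
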