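import Mathlib
import Pool.Agent.H73.P4.Side
import Pool.Agent.H44.FQ.Defs

set_option autoImplicit false

/-!
Rooted codes with sides (MP_a46c6f_co): the inverse of the reduced Laplacian and the splittings of closed
sets, from the injectivity of the reduced Laplacian.
-/

namespace Pool.Agent.H44.FQ

open Pool.Agent.H98.Code Pool.Agent.H17.TR Pool.Agent.H73.P4 Finset

section
variable {V : Type} [Fintype V] [DecidableEq V]
variable {L : Submodule (ZMod 2) (V → K)} {H : V → V → ZMod 2} {e : V}

/-- the reduced Laplacian is injective -/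
def Ker0 (H : V → V → ZMod 2) (e : V) : Prop :=
  ∀ x : V → ZMod 2, x e = 0 → (∀ v, v ≠ e → lap H x v = 0) → x = 0

theorem ker0_of {Y : (V → K) → Finset V} (hS : Sided L e Y) (hH : IsMat L H) : Ker0 H e := by
  intro x hx h
  have he : lap H x e = 0 := by
    have h1 := Pool.Agent.H73.P4.lap_sum hH.sym x
    rw [Finset.sum_eq_single e] at h1
    · exact h1
    · intro v _ hv
      exact h v hv
    · intro h2
      exact absurd (Finset.mem_univ e) h2
  have hall : ∀ v, lap H x v = 0 := by
    intro v
    by_cases hv : v = e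
    · rw [hv]
      exact he
    · exact h v hv
  have hu := wd_mem hH x
  have hk : ∀ v, kf (wd H x v) (om H v) = 0 := by
    intro v
    rw [kf_om hH hu]
    exact hall v
  have hcase : ∀ v, wd H x v = 0 ∨ wd H x v = om H v := by
    intro v
    have h1 := hk v
    have h2 := om_fst H v
    generalize wd H x v = a at h1 ⊢
    generalize om H v = b at h1 h2 ⊢
    revert a b
    decide
  have hue : wd H x e = 0 := by
    rcases hcase e with h1 | h1
    · exact h1
    · have h2 := congrArg Prod.fst h1
      rw [om_fst] at h2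
      have h3 : (wd H x e).1 = 0 := hx
      rw [h3] at h2
      exact absurd h2 (by decide)
  have h0 := hS.om (om H) (wd_mem hH _) (om_fst H) (wd H x) hu hue hcase
  funext v
  exact congrArg Prod.fst (congrFun h0 v)

theorem Phi_inj' (hk : Ker0 H e) : Function.Injective (Phi H e) := by
  rw [injective_iff_map_eq_zero]
  intro x hx
  apply hk x
  · rw [← Phi_e (H := H) (e := e) x, hx]
    rfl
  · intro v hv
    rw [← Phi_ne (H := H) (e := e) x hv, hx]
    rfl

theorem exists_mu' (hk : Ker0 H e) (hH : IsMat L H) :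
    ∃ μ : V → V → ZMod 2, IsInv H e μ := by
  have hsurj : Function.Surjective (Phi H e) :=
    LinearMap.injective_iff_surjective.1 (Phi_inj' hk)
  choose m hm using fun x : V => hsurj (Pi.single x 1)
  have hme : ∀ x, x ≠ e → m x e = 0 := by
    intro x hx
    rw [← Phi_e (H := H) (e := e) (m x), hm x, Pi.single_eq_of_ne (Ne.symm hx)]
  have hml : ∀ x, ∀ v, v ≠ e → lap H (m x) v = if v = x then 1 else 0 := by
    intro x v hv
    rw [← Phi_ne (H := H) (e := e) (m x) hv, hm x]
    by_cases h : v = x
    · rw [h, Pi.single_eq_same, if_pos rfl]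
    · rw [Pi.single_eq_of_ne h, if_neg h]
  have hsym : ∀ x y, x ≠ e → y ≠ e → m x y = m y x := by
    intro x y hx hy
    have key : ∀ x y, x ≠ e → y ≠ e → ∑ v, m x v * lap H (m y) v = m x y := by
      intro x y hx hy
      rw [Finset.sum_eq_single y]
      · rw [hml y y hy, if_pos rfl, mul_one]
      · intro v _ hv
        by_cases hve : v = e
        · rw [hve, hme x hx, zero_mul]
        · rw [hml y v hve, if_neg hv, mul_zero]
      · intro h
        exact absurd (Finset.mem_univ y) h
    rw [← key x y hx hy, ← key y x hy hx]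
    exact lap_symm hH.sym _ _
  refine ⟨fun x y => if x = e then 0 else m x y, ?_, ?_, ?_, ?_⟩
  · intro y
    simp
  · intro x
    by_cases hx : x = e
    · simp [hx]
    · simp [hx, hme x hx]
  · intro x hx v hv
    have : (fun y => if x = e then 0 else m x y) = m x := by
      funext y
      rw [if_neg hx]
    simp only [this]
    exact hml x v hv
  · intro x y
    by_cases hx : x = e
    · by_cases hy : y = e
      · simp [hx, hy]
      · simp [hx, hy, hme y hy]
    · by_cases hy : y = e
      · simp [hx, hy, hme x hx]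
      · simp [hx, hy, hsym x y hx hy]

theorem eq_of_lap' (hk : Ker0 H e) (x y : V → ZMod 2)
    (he : x e = y e) (h : ∀ v, v ≠ e → lap H x v = lap H y v) : x = y := by
  have h1 := hk (x + y) (by rw [Pi.add_apply, he, two_zero])
    (fun v hv => by rw [lap_add, h v hv, two_zero])
  funext v
  have h2 := congrFun h1 v
  rw [Pi.add_apply, Pi.zero_apply] at h2
  revert h2
  generalize x v = a
  generalize y v = b
  revert a b
  decide

/-- one half of a splitting -/
theorem half' (hk : Ker0 H e) (hH : IsMat L H) {μ : V → V → ZMod 2}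
    (hμ : IsInv H e μ) {T : Finset V} (heT : e ∉ T) {c c₁ c₂ : V → K} {g : V} (h1 : c₁ ∈ L)
    (hsum : c₁ + c₂ = c) (hg : c₁ g = z) (hdis : ∀ v, v ≠ g → c₁ v = 0 ∨ c₂ v = 0)
    (hce : c e = 0) (hgT : g ∉ T)
    (hcl : ∀ v, kf (c v) (om H v) = if v ∈ T then 1 else 0) :
    (fun v => (c₁ v).1) = (∑ s ∈ T.filter (fun t => c₁ t ≠ 0), μ s) + μ g ∧
      Odd (T.filter (fun t => c₁ t ≠ 0)).card := by
  set T₁ := T.filter (fun t => c₁ t ≠ 0) with hT₁
  have hlap : ∀ v, lap H (fun w => (c₁ w).1) v = (if v ∈ T₁ then 1 else 0) + if v = g then 1 else 0 := by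
    intro v
    rw [← kf_om hH h1 v]
    by_cases hvg : v = g
    · rw [hvg, hg, kf_z_om, if_pos rfl, if_neg, zero_add]
      intro h
      exact hgT (Finset.mem_filter.1 h).1
    · rw [if_neg hvg, add_zero]
      by_cases h3 : c₁ v = 0
      · rw [h3, kf_zero_left, if_neg]
        intro h
        exact (Finset.mem_filter.1 h).2 h3
      · have h4 : c₂ v = 0 := (hdis v hvg).resolve_left h3
        have h5 : c₁ v = c v := by rw [← hsum, Pi.add_apply, h4, add_zero]
        rw [h5, hcl v]
        by_cases h6 : v ∈ T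
        · rw [if_pos h6, if_pos (Finset.mem_filter.2 ⟨h6, h3⟩)]
        · rw [if_neg h6, if_neg]
          intro h
          exact h6 (Finset.mem_filter.1 h).1
  have heT₁ : e ∉ T₁ := fun h => heT (Finset.mem_filter.1 h).1
  have hgT₁ : g ∉ T₁ := fun h => hgT (Finset.mem_filter.1 h).1
  constructor
  · apply eq_of_lap' hk
    · rw [Pi.add_apply, hμ.sum_e, hμ.col, add_zero]
      by_cases heg : e = g
      · have : (c₁ e) = z := by rw [heg]; exact hg
        rw [this]
        rfl
      · rcases hdis e heg with h3 | h3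
        · rw [h3]
          rfl
        · have h5 : c₁ e = c e := by rw [← hsum, Pi.add_apply, h3, add_zero]
          rw [h5, hce]
          rfl
    · intro v hv
      rw [hlap v, lap_add, hμ.lap_sum T₁ heT₁ v hv]
      congr 1
      by_cases hge : g = e
      · rw [if_neg (fun h => hv (h.trans hge))]
        unfold lap
        symm
        refine Finset.sum_eq_zero fun w _ => ?_
        rw [hge, hμ.row, hμ.row, add_zero, mul_zero]
      · rw [hμ.inv g hge v hv]
  · have h0 := Pool.Agent.H73.P4.lap_sum hH.sym (fun w => (c₁ w).1)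
    simp only [hlap] at h0
    rw [Finset.sum_add_distrib, Finset.sum_ite_eq' Finset.univ g] at h0
    simp only [Finset.mem_univ, if_true] at h0
    rw [Finset.sum_ite_mem, Finset.univ_inter, Finset.sum_const, nsmul_eq_mul, mul_one] at h0
    rw [← Nat.not_even_iff_odd, ← ZMod.natCast_eq_zero_iff_even]
    intro h2
    rw [h2, zero_add] at h0
    exact absurd h0 (by decide)

/-- the splitting of a closed set of size `2` or `4` -/
theorem key' (hk : Ker0 H e) (hH : IsMat L H) {μ : V → V → ZMod 2}
    (hμ : IsInv H e μ) {T : Finset V} (heT : e ∉ T) (hcard : T.card = 2 ∨ T.card = 4)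
    (hX : ∀ t ∈ T, ∑ s ∈ T, μ s t = 1) (hspl : ∃ g, Splits L (wd H (∑ s ∈ T, μ s)) g) :
    ∃ g, ∃ t ∈ T, (∀ w, ∑ s ∈ T, μ s w = 0 → μ g w = μ t w) ∧
      (∀ t' ∈ T, t' ≠ t → μ g t' = μ t t') ∧ μ g t = μ t t + 1 ∧ μ g g = μ t g := by
  set X : V → ZMod 2 := ∑ s ∈ T, μ s with hXdef
  have hXa : ∀ w, X w = ∑ s ∈ T, μ s w := by
    intro w
    rw [hXdef, Finset.sum_apply]
  have hlapX : ∀ v, lap H X v = if v ∈ T then 1 else 0 := by
    intro v
    by_cases hv : v = e
    · have h0 := Pool.Agent.H73.P4.lap_sum hH.sym X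
      rw [← Finset.add_sum_erase _ _ (Finset.mem_univ e)] at h0
      have h1 : ∑ x ∈ Finset.univ.erase e, lap H X x = ∑ x ∈ Finset.univ.erase e,
          if x ∈ T then (1 : ZMod 2) else 0 := by
        refine Finset.sum_congr rfl fun x hx => ?_
        exact hμ.lap_sum T heT x (Finset.ne_of_mem_erase hx)
      rw [h1, Finset.sum_ite_mem, Finset.sum_const, nsmul_eq_mul, mul_one] at h0
      have h2 : (Finset.univ.erase e ∩ T) = T := by
        ext x
        simp only [Finset.mem_inter, Finset.mem_erase, Finset.mem_univ, and_true]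
        constructor
        · intro h
          exact h.2
        · intro h
          exact ⟨fun h' => heT (h' ▸ h), h⟩
      rw [h2] at h0
      have h3 : ((T.card : ℕ) : ZMod 2) = 0 := by
        rcases hcard with h | h <;> rw [h] <;> decide
      rw [h3, add_zero] at h0
      rw [hv, h0, if_neg heT]
    · exact hμ.lap_sum T heT v hv
  have hcL := wd_mem hH X
  have hcl : ∀ v, kf (wd H X v) (om H v) = if v ∈ T then 1 else 0 := by
    intro v
    rw [kf_om hH hcL]
    exact hlapX v
  have hXt : ∀ t ∈ T, X t = 1 := by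
    intro t ht
    rw [hXa]
    exact hX t ht
  have hzf : ZFree (wd H X) := by
    intro v hv
    have h1 := hcl v
    have h2 : X v = 0 := by
      have := congrArg Prod.fst hv
      exact this
    rw [hv, kf_z_om] at h1
    by_cases h3 : v ∈ T
    · rw [hXt v h3] at h2
      exact absurd h2 (by decide)
    · rw [if_neg h3] at h1
      exact absurd h1 (by decide)
  have hXe : X e = 0 := hμ.sum_e T
  have hce : wd H X e = 0 := by
    have h1 := hcl e
    have h2 : (wd H X e).1 = 0 := hXe
    rw [if_neg heT, kf, h2, om_fst] at h1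
    apply Prod.ext
    · exact h2
    · simpa using h1
  have hne : T.Nonempty := by
    rw [← Finset.card_pos]
    omega
  have hc0 : wd H X ≠ 0 := by
    obtain ⟨t, ht⟩ := hne
    intro h0
    have h1 : X t = 0 := congrArg Prod.fst (congrFun h0 t)
    rw [hXt t ht] at h1
    exact absurd h1 (by decide)
  obtain ⟨g, c₁, h1, c₂, h2, hsum, hg1, hg2, hdis⟩ := hspl
  have hcg : wd H X g = 0 := by
    rw [← hsum, Pi.add_apply, hg1, hg2]
    decide
  have hgT : g ∉ T := by
    intro h
    have h3 : X g = 0 := congrArg Prod.fst hcg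
    rw [hXt g h] at h3
    exact absurd h3 (by decide)
  obtain ⟨hA, hAo⟩ := half' hk hH hμ heT h1 hsum hg1 hdis hce hgT hcl
  obtain ⟨hB, hBo⟩ := half' hk hH hμ heT h2 (by rw [add_comm]; exact hsum) hg2
    (fun v hv => (hdis v hv).symm) hce hgT hcl
  set T₁ := T.filter (fun t => c₁ t ≠ 0) with hT₁
  set T₂ := T.filter (fun t => c₂ t ≠ 0) with hT₂
  -- the two parts
  have hor : ∀ t ∈ T, (t ∈ T₁ ∧ t ∉ T₂ ∧ c₂ t = 0) ∨ (t ∈ T₂ ∧ t ∉ T₁ ∧ c₁ t = 0) := by
    intro t ht
    have htg : t ≠ g := fun h => hgT (h ▸ ht)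
    have hct : c₁ t + c₂ t ≠ 0 := by
      intro h
      have h3 : wd H X t = 0 := by rw [← hsum, Pi.add_apply, h]
      have h4 : X t = 0 := congrArg Prod.fst h3
      rw [hXt t ht] at h4
      exact absurd h4 (by decide)
    rcases hdis t htg with h3 | h3
    · right
      refine ⟨Finset.mem_filter.2 ⟨ht, fun h4 => hct (by rw [h3, h4, add_zero])⟩, ?_, h3⟩
      intro h4
      exact (Finset.mem_filter.1 h4).2 h3
    · left
      refine ⟨Finset.mem_filter.2 ⟨ht, fun h4 => hct (by rw [h3, h4, add_zero])⟩, ?_, h3⟩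
      intro h4
      exact (Finset.mem_filter.1 h4).2 h3
  have hcardsum : T₁.card + T₂.card = T.card := by
    rw [← Finset.card_union_of_disjoint]
    · congr 1
      ext t
      rw [Finset.mem_union]
      constructor
      · rintro (h | h)
        · exact (Finset.mem_filter.1 h).1
        · exact (Finset.mem_filter.1 h).1
      · intro h
        rcases hor t h with h3 | h3
        · exact Or.inl h3.1
        · exact Or.inr h3.1
    · rw [Finset.disjoint_left]
      intro t h3 h4
      rcases hor t (Finset.mem_filter.1 h3).1 with h5 | h5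
      · exact h5.2.1 h4
      · exact h5.2.1 h3
  have hX12 : ∀ w, (c₁ w).1 + (c₂ w).1 = X w := by
    intro w
    have := congrArg Prod.fst (congrFun hsum w)
    exact this
  have hdis1 : ∀ w, (c₁ w).1 = 0 ∨ (c₂ w).1 = 0 := by
    intro w
    by_cases hw : w = g
    · left
      rw [hw, hg1]
      rfl
    · rcases hdis w hw with h3 | h3
      · left
        rw [h3]
        rfl
      · right
        rw [h3]
        rfl
  -- the end of the proof, from a part with one element
  have fin : ∀ (d₁ d₂ : V → K) (t : V), t ∈ T → (∀ w, (d₁ w).1 + (d₂ w).1 = X w) →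
      (∀ w, (d₁ w).1 = 0 ∨ (d₂ w).1 = 0) → (fun v => (d₁ v).1) = μ t + μ g →
      (∀ t' ∈ T, t' ≠ t → d₁ t' = 0) → d₂ t = 0 → d₁ g = z →
      ∃ g, ∃ t ∈ T, (∀ w, ∑ s ∈ T, μ s w = 0 → μ g w = μ t w) ∧
        (∀ t' ∈ T, t' ≠ t → μ g t' = μ t t') ∧ μ g t = μ t t + 1 ∧ μ g g = μ t g := by
    intro d₁ d₂ t ht hs hd heq h0 h0' hdg
    have hpt : ∀ w, (d₁ w).1 = μ t w + μ g w := fun w => congrFun heq w
    have aux : ∀ a b : ZMod 2, a + b = 0 → b = a := by decide
    have aux1 : ∀ a b : ZMod 2, a + b = 1 → b = a + 1 := by decide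
    refine ⟨g, t, ht, ?_, ?_, ?_, ?_⟩
    · intro w hw
      apply aux
      rw [← hpt w]
      have h3 := hs w
      rw [hXa w, hw] at h3
      rcases hd w with h4 | h4
      · exact h4
      · rw [h4, add_zero] at h3
        exact h3
    · intro t' ht' hne'
      apply aux
      rw [← hpt t', h0 t' ht' hne']
      rfl
    · apply aux1
      rw [← hpt t]
      have h3 := hs t
      rw [h0', hXt t ht] at h3
      simpa using h3
    · apply aux
      rw [← hpt g, hdg]
      rfl
  have hone : T₁.card = 1 ∨ T₂.card = 1 := by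
    obtain ⟨i, hi⟩ := hAo
    obtain ⟨j, hj⟩ := hBo
    rcases hcard with h | h <;> omega
  rcases hone with h3 | h3
  · obtain ⟨t, ht⟩ := Finset.card_eq_one.1 h3
    have htT : t ∈ T := by
      have : t ∈ T₁ := by rw [ht]; exact Finset.mem_singleton_self t
      exact (Finset.mem_filter.1 this).1
    refine fin c₁ c₂ t htT hX12 hdis1 ?_ ?_ ?_ hg1
    · rw [hA, ht, Finset.sum_singleton]
    · intro t' ht' hne'
      rcases hor t' ht' with h4 | h4
      · exact absurd (by rw [ht] at h4; exact Finset.mem_singleton.1 h4.1) hne'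
      · exact h4.2.2
    · rcases hor t htT with h4 | h4
      · exact h4.2.2
      · exact absurd (by rw [ht]; exact Finset.mem_singleton_self t) h4.2.1
  · obtain ⟨t, ht⟩ := Finset.card_eq_one.1 h3
    have htT : t ∈ T := by
      have : t ∈ T₂ := by rw [ht]; exact Finset.mem_singleton_self t
      exact (Finset.mem_filter.1 this).1
    refine fin c₂ c₁ t htT (fun w => by rw [add_comm]; exact hX12 w) (fun w => (hdis1 w).symm)
      ?_ ?_ ?_ hg2
    · rw [hB, ht, Finset.sum_singleton]
    · intro t' ht' hne'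
      rcases hor t' ht' with h4 | h4
      · exact h4.2.2
      · exact absurd (by rw [ht] at h4; exact Finset.mem_singleton.1 h4.1) hne'
    · rcases hor t htT with h4 | h4
      · exact absurd (by rw [ht]; exact Finset.mem_singleton_self t) h4.2.1
      · exact h4.2.2

end

end Pool.Agent.H44.FQ
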