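import Mathlib
import Pool.Agent.H44.FQ.Split

set_option autoImplicit false

/-!
Rooted codes with sides (MP_a46c6f_co): the words with given sets of letters.
-/

namespace Pool.Agent.H44.FQ

open Pool.Agent.H98.Code Pool.Agent.H17.TR Pool.Agent.H73.P4 Finset

theorem lext : ∀ a b c : K, c.1 = 1 → a.1 = b.1 → kf a c = kf b c → a = b := by decide
theorem lzero : ∀ a c : K, c.1 = 1 → a.1 = 0 → kf a c = 0 → a = 0 := by decide
theorem lz : ∀ a c : K, c.1 = 1 → a.1 = 0 → kf a c = 1 → a = z := by decide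
theorem le_out : ∀ k u c : K, c.1 = 1 → u ≠ 0 → kf u c = 0 → kf k c = 0 → k = 0 ∨ k = u := by
  decide
theorem zc : ∀ a : ZMod 2, a = 0 ∨ a = 1 := by decide
theorem le_in (k u c : K) (hc : c.1 = 1) (hu : u.1 = 1) (hu' : kf u c = 1) (h : kf k c = k.1) :
    k = 0 ∨ k = u := by
  rcases zc k.1 with h1 | h1
  · exact Or.inl (lzero k c hc h1 (h.trans h1))
  · exact Or.inr (lext k u c hc (h1.trans hu.symm) ((h.trans h1).trans hu'.symm))
theorem kself : ∀ a : K, a + a = 0 := by decide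
theorem zne : ∀ a : K, a.1 = 1 → a ≠ 0 := by decide

section
variable {V : Type} [Fintype V] [DecidableEq V]
variable {L : Submodule (ZMod 2) (V → K)} {H : V → V → ZMod 2} {e : V} {μ : V → V → ZMod 2}
variable {Y : (V → K) → Finset V}

structure Dat (L : Submodule (ZMod 2) (V → K)) (H : V → V → ZMod 2) (e : V) (μ : V → V → ZMod 2)
    (Y : (V → K) → Finset V) : Prop where
  mat : IsMat L H
  inv : IsInv H e μ
  k0 : Ker0 H e
  sd : Sided L e Y

omit [DecidableEq V] in
theorem lap_lin (H : V → V → ZMod 2) (τ : V → ZMod 2) (m : V → V → ZMod 2) (v : V) :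
    lap H (fun w => ∑ s, τ s * m s w) v = ∑ s, τ s * lap H (m s) v := by
  unfold lap
  have h1 : ∀ w, H v w * (∑ s, τ s * m s w + ∑ s, τ s * m s v) =
      ∑ s, τ s * (H v w * (m s w + m s v)) := by
    intro w
    rw [← Finset.sum_add_distrib, Finset.mul_sum]
    refine Finset.sum_congr rfl fun s _ => ?_
    ring
  simp only [h1]
  rw [Finset.sum_comm]
  refine Finset.sum_congr rfl fun s _ => ?_
  rw [Finset.mul_sum]

theorem Dat.exist (D : Dat L H e μ Y) (τ : V → ZMod 2) (h0 : ∑ s, τ s = 0) :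
    ∃ k ∈ L, (∀ v, kf (k v) (om H v) = τ v) ∧ ∀ v, (k v).1 = ∑ s, τ s * μ s v := by
  have hm := wd_mem D.mat (fun v => ∑ s, τ s * μ s v)
  refine ⟨_, hm, ?_, fun v => rfl⟩
  have h1 : ∀ v, v ≠ e → lap H (fun v => ∑ s, τ s * μ s v) v = τ v := by
    intro v hv
    rw [lap_lin, Finset.sum_eq_single v]
    · rw [D.inv.inv v hv v hv, if_pos rfl, mul_one]
    · intro s _ hs
      by_cases hse : s = e
      · have : lap H (μ s) v = 0 := by
          unfold lap
          refine Finset.sum_eq_zero fun w _ => ?_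
          rw [hse, D.inv.row, D.inv.row, add_zero, mul_zero]
        rw [this, mul_zero]
      · rw [D.inv.inv s hse v hv, if_neg (Ne.symm hs), mul_zero]
    · intro h
      exact absurd (Finset.mem_univ v) h
  intro v
  rw [kf_om D.mat hm]
  show lap H (fun v => ∑ s, τ s * μ s v) v = τ v
  by_cases hv : v = e
  · have h2 := Pool.Agent.H73.P4.lap_sum D.mat.sym (fun v => ∑ s, τ s * μ s v)
    rw [← Finset.add_sum_erase _ _ (Finset.mem_univ e)] at h2
    rw [← Finset.add_sum_erase _ _ (Finset.mem_univ e)] at h0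
    rw [Finset.sum_congr rfl (fun x hx => h1 x (Finset.ne_of_mem_erase hx))] at h2
    rw [hv]
    have h3 : ∀ a b c : ZMod 2, a + c = 0 → b + c = 0 → a = b := by decide
    exact h3 _ _ _ h2 h0
  · exact h1 v hv

theorem Dat.repr (D : Dat L H e μ Y) {k : V → K} (hk : k ∈ L) (h0 : (k e).1 = 0) :
    (∀ v, (k v).1 = ∑ s, kf (k s) (om H s) * μ s v) ∧ ∑ s, kf (k s) (om H s) = 0 := by
  have h1 : ∑ s, kf (k s) (om H s) = 0 := by
    have h2 := Pool.Agent.H73.P4.lap_sum D.mat.sym (fun w => (k w).1)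
    rw [← h2]
    exact Finset.sum_congr rfl fun s _ => kf_om D.mat hk s
  refine ⟨?_, h1⟩
  obtain ⟨k', hk', ht, hf⟩ := D.exist _ h1
  have h3 : (fun v => (k v).1) = fun v => (k' v).1 := by
    apply eq_of_lap' D.k0
    · show (k e).1 = (k' e).1
      rw [h0, hf e]
      symm
      refine Finset.sum_eq_zero fun s _ => ?_
      rw [D.inv.col, mul_zero]
    · intro v _
      rw [← kf_om D.mat hk v, ← kf_om D.mat hk' v, ht v]
  intro v
  rw [← hf v]
  exact congrFun h3 v

/-- two words with the same letters `z`, third are equal -/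
theorem Dat.ext (D : Dat L H e μ Y) {k k' : V → K} (hk : k ∈ L) (h0 : (k e).1 = 0) (hk' : k' ∈ L)
    (h0' : (k' e).1 = 0) (h : ∀ v, kf (k v) (om H v) = kf (k' v) (om H v)) : k = k' := by
  funext v
  apply lext _ _ (om H v) (om_fst H v) _ (h v)
  rw [(D.repr hk h0).1 v, (D.repr hk' h0').1 v]
  exact Finset.sum_congr rfl fun s _ => by rw [h s]

/-- the word of the closed set `T` -/
def U (H : V → V → ZMod 2) (μ : V → V → ZMod 2) (T : Finset V) : V → K := wd H (∑ s ∈ T, μ s)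

structure ClT (μ : V → V → ZMod 2) (e : V) (T : Finset V) : Prop where
  he : e ∉ T
  ev : ((T.card : ℕ) : ZMod 2) = 0
  cl : ∀ t ∈ T, ∑ s ∈ T, μ s t = 1
  ne : T.Nonempty

theorem U_fst (T : Finset V) (v : V) : (U H μ T v).1 = ∑ s ∈ T, μ s v := by
  show (∑ s ∈ T, μ s) v = _
  rw [Finset.sum_apply]

theorem Dat.U_mem (D : Dat L H e μ Y) (T : Finset V) : U H μ T ∈ L := wd_mem D.mat _

theorem Dat.U_t (D : Dat L H e μ Y) {T : Finset V} (hT : ClT μ e T) (v : V) :
    kf (U H μ T v) (om H v) = if v ∈ T then 1 else 0 := by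
  unfold U
  rw [kf_om D.mat (wd_mem D.mat _)]
  show lap H (∑ s ∈ T, μ s) v = _
  by_cases hv : v = e
  · have h0 := Pool.Agent.H73.P4.lap_sum D.mat.sym (∑ s ∈ T, μ s)
    rw [← Finset.add_sum_erase _ _ (Finset.mem_univ e)] at h0
    have h1 : ∑ x ∈ Finset.univ.erase e, lap H (∑ s ∈ T, μ s) x = ∑ x ∈ Finset.univ.erase e,
        if x ∈ T then (1 : ZMod 2) else 0 := by
      refine Finset.sum_congr rfl fun x hx => ?_
      exact D.inv.lap_sum T hT.he x (Finset.ne_of_mem_erase hx)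
    rw [h1, Finset.sum_ite_mem, Finset.sum_const, nsmul_eq_mul, mul_one] at h0
    have h2 : (Finset.univ.erase e ∩ T) = T := by
      ext x
      simp only [Finset.mem_inter, Finset.mem_erase, Finset.mem_univ, and_true]
      constructor
      · intro h
        exact h.2
      · intro h
        exact ⟨fun h' => hT.he (h' ▸ h), h⟩
    rw [h2, hT.ev, add_zero] at h0
    rw [hv, h0, if_neg hT.he]
  · exact D.inv.lap_sum T hT.he v hv

theorem Dat.U_root (D : Dat L H e μ Y) {T : Finset V} (hT : ClT μ e T) : U H μ T e = 0 := by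
  apply lzero _ _ (om_fst H e)
  · rw [U_fst]
    exact Finset.sum_eq_zero fun s _ => D.inv.col s
  · rw [D.U_t hT, if_neg hT.he]

theorem Dat.U_in (D : Dat L H e μ Y) {T : Finset V} (hT : ClT μ e T) {t : V} (ht : t ∈ T) :
    (U H μ T t).1 = 1 ∧ kf (U H μ T t) (om H t) = 1 ∧ U H μ T t ≠ 0 := by
  have h1 : (U H μ T t).1 = 1 := by rw [U_fst]; exact hT.cl t ht
  exact ⟨h1, by rw [D.U_t hT, if_pos ht], zne _ h1⟩

theorem Dat.U_zfree (D : Dat L H e μ Y) {T : Finset V} (hT : ClT μ e T) : ZFree (U H μ T) := by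
  intro v hv
  have h1 := D.U_t hT v
  by_cases h3 : v ∈ T
  · have h4 := (D.U_in hT h3).1
    rw [hv] at h4
    exact absurd h4 (by decide)
  · rw [if_neg h3, hv, kf_z_om] at h1
    exact absurd h1 (by decide)

theorem Dat.U_ne (D : Dat L H e μ Y) {T : Finset V} (hT : ClT μ e T) : U H μ T ≠ 0 := by
  obtain ⟨t, ht⟩ := hT.ne
  intro h
  exact (D.U_in hT ht).2.2 (congrFun h t)

/-- a word below the word of `T` outside, with equal coordinates in `T`, is below it -/
theorem Dat.le_U (D : Dat L H e μ Y) {T : Finset V} (hT : ClT μ e T) {k : V → K}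
    (h1 : ∀ t ∈ T, kf (k t) (om H t) = (k t).1)
    (h2 : ∀ v, v ∉ T → U H μ T v ≠ 0 → kf (k v) (om H v) = 0) :
    ∀ v, U H μ T v ≠ 0 → k v = 0 ∨ k v = U H μ T v := by
  intro v hv
  by_cases hvT : v ∈ T
  · exact le_in _ _ _ (om_fst H v) (D.U_in hT hvT).1 (D.U_in hT hvT).2.1 (h1 v hvT)
  · exact le_out _ _ _ (om_fst H v) hv (by rw [D.U_t hT, if_neg hvT]) (h2 v hvT hv)

theorem Dat.t_of_le (D : Dat L H e μ Y) {T : Finset V} (hT : ClT μ e T) {k : V → K} {v : V}
    (h : k v = 0 ∨ k v = U H μ T v) :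
    (v ∉ T → kf (k v) (om H v) = 0) ∧ (v ∈ T → kf (k v) (om H v) = (k v).1) := by
  constructor
  · intro hv
    rcases h with h | h
    · rw [h, kf_zero_left]
    · rw [h, D.U_t hT, if_neg hv]
  · intro hv
    rcases h with h | h
    · rw [h, kf_zero_left]; rfl
    · rw [h, (D.U_in hT hv).1, (D.U_in hT hv).2.1]

/-- the part of a word on the side of `u`, for a word with exactly one point in `Y u` -/
theorem Dat.own (D : Dat L H e μ Y) {T : Finset V} (hT : ClT μ e T)
    (hG : Good L e (U H μ T)) {y : V} (hy : y ∈ Y (U H μ T)) {q : V → K} (hq : q ∈ L)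
    (hqe : (q e).1 = 0) (hle : ∀ v, U H μ T v ≠ 0 → q v = 0 ∨ q v = U H μ T v)
    (hqy : kf (q y) (om H y) = 1) (hq0 : ∀ s ∈ Y (U H μ T), s ≠ y → kf (q s) (om H s) = 0) :
    ∃ τ : V → ZMod 2, (∀ s, s ≠ y → s ∉ T → τ s = 0) ∧ τ y = 1 ∧ ∑ s, τ s = 0 ∧
      (∀ t ∈ T, ∑ s, τ s * μ s t = τ t) ∧
      ∀ p, U H μ T p = 0 → p ∉ Y (U H μ T) → ∑ s, τ s * μ s p = 0 := by
  obtain ⟨q', hq', h1, h2, h3⟩ := D.sd.part _ hG q hq hqe hle
  have heY : e ∉ Y (U H μ T) := fun h => (D.sd.zero _ hG e h).2 rfl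
  have hq'e : q' e = 0 := h2 e hG.root heY
  obtain ⟨r1, r2⟩ := D.repr hq' (by rw [hq'e]; rfl)
  refine ⟨fun s => kf (q' s) (om H s), ?_, ?_, r2, ?_, ?_⟩
  · intro s hs hsT
    show kf (q' s) (om H s) = 0
    by_cases hu : U H μ T s = 0
    · by_cases hsY : s ∈ Y (U H μ T)
      · rw [h1 s hsY]
        exact hq0 s hsY hs
      · rw [h2 s hu hsY, kf_zero_left]
    · exact (D.t_of_le hT (h3 s hu)).1 hsT
  · show kf (q' y) (om H y) = 1
    rw [h1 y hy, hqy]
  · intro t ht
    show _ = kf (q' t) (om H t)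
    rw [← r1 t]
    exact ((D.t_of_le hT (h3 t (D.U_in hT ht).2.2)).2 ht).symm
  · intro p hp hpY
    rw [← r1 p, h2 p hp hpY]
    rfl

/-- the part of a word without points in `Y u` -/
theorem Dat.own0 (D : Dat L H e μ Y) {T : Finset V} (hT : ClT μ e T)
    (hG : Good L e (U H μ T)) {q : V → K} (hq : q ∈ L)
    (hqe : (q e).1 = 0) (hle : ∀ v, U H μ T v ≠ 0 → q v = 0 ∨ q v = U H μ T v)
    (hq0 : ∀ s ∈ Y (U H μ T), kf (q s) (om H s) = 0) :
    ∃ τ : V → ZMod 2, (∀ s, s ∉ T → τ s = 0) ∧ ∑ s, τ s = 0 ∧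
      ∀ y ∈ Y (U H μ T), (q y).1 = ∑ s, τ s * μ s y := by
  obtain ⟨q', hq', h1, h2, h3⟩ := D.sd.part _ hG q hq hqe hle
  have heY : e ∉ Y (U H μ T) := fun h => (D.sd.zero _ hG e h).2 rfl
  have hq'e : q' e = 0 := h2 e hG.root heY
  obtain ⟨r1, r2⟩ := D.repr hq' (by rw [hq'e]; rfl)
  refine ⟨fun s => kf (q' s) (om H s), ?_, r2, ?_⟩
  · intro s hsT
    show kf (q' s) (om H s) = 0
    by_cases hu : U H μ T s = 0
    · by_cases hsY : s ∈ Y (U H μ T)
      · rw [h1 s hsY]
        exact hq0 s hsY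
      · rw [h2 s hu hsY, kf_zero_left]
    · exact (D.t_of_le hT (h3 s hu)).1 hsT
  · intro y hy
    rw [← r1 y, h1 y hy]

/-- the words with letters at given points -/
theorem Dat.mkw (D : Dat L H e μ Y) (y a b c : V) (ja jb jc : ZMod 2) :
    ∃ k ∈ L, (k e).1 = 0 ∧ (∀ v, kf (k v) (om H v) = (if v = y then 1 else 0) +
      ja * (if v = a then 1 else 0) + jb * (if v = b then 1 else 0) +
      jc * (if v = c then 1 else 0) + (1 + ja + jb + jc) * (if v = e then 1 else 0)) ∧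
      ∀ v, (k v).1 = μ y v + ja * μ a v + jb * μ b v + jc * μ c v := by
  obtain ⟨k, hk, h1, h2⟩ := D.exist (fun v => (if v = y then 1 else 0) +
      ja * (if v = a then 1 else 0) + jb * (if v = b then 1 else 0) +
      jc * (if v = c then 1 else 0) + (1 + ja + jb + jc) * (if v = e then 1 else 0)) (by
    simp only [Finset.sum_add_distrib, ← Finset.mul_sum, Finset.sum_ite_eq', Finset.mem_univ,
      if_true, mul_one]
    have : ∀ a b c : ZMod 2, 1 + a + b + c + (1 + a + b + c) = 0 := by decide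
    exact this _ _ _)
  have h3 : ∀ v, (k v).1 = μ y v + ja * μ a v + jb * μ b v + jc * μ c v := by
    intro v
    rw [h2 v]
    simp only [add_mul, mul_assoc, ite_mul, one_mul, zero_mul, Finset.sum_add_distrib,
      ← Finset.mul_sum, Finset.sum_ite_eq', Finset.mem_univ, if_true, D.inv.row, mul_zero,
      add_zero]
  refine ⟨k, hk, ?_, h1, h3⟩
  rw [h3 e, D.inv.col, D.inv.col, D.inv.col, D.inv.col]
  simp

end

end Pool.Agent.H44.FQ
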