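import Mathlib
import Pool.Agent.H44.FQ.Words

set_option autoImplicit false

/-!
Rooted codes with sides (MP_a46c6f_co): the rows of the points of the side of an unsplit word of a closed
pair or of a closed path.
-/

namespace Pool.Agent.H44.FQ

open Pool.Agent.H98.Code Pool.Agent.H17.TR Pool.Agent.H73.P4 Finset

section
variable {V : Type} [Fintype V] [DecidableEq V]
variable {L : Submodule (ZMod 2) (V → K)} {H : V → V → ZMod 2} {e : V} {μ : V → V → ZMod 2}
variable {Y : (V → K) → Finset V}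

theorem sum3 (f : V → ZMod 2) {y a b : V} (h1 : y ≠ a) (h2 : y ≠ b) (h3 : a ≠ b)
    (h0 : ∀ s, s ≠ y → s ≠ a → s ≠ b → f s = 0) : ∑ s, f s = f y + f a + f b := by
  rw [← Finset.sum_subset (Finset.subset_univ {y, a, b})]
  · rw [Finset.sum_insert (by simp [h1, h2]), Finset.sum_insert (by simp [h3]),
      Finset.sum_singleton]
    ring
  · intro s _ hs
    simp only [Finset.mem_insert, Finset.mem_singleton, not_or] at hs
    exact h0 s hs.1 hs.2.1 hs.2.2

theorem sum2 (f : V → ZMod 2) {a b : V} (h3 : a ≠ b)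
    (h0 : ∀ s, s ≠ a → s ≠ b → f s = 0) : ∑ s, f s = f a + f b := by
  rw [← Finset.sum_subset (Finset.subset_univ {a, b})]
  · rw [Finset.sum_insert (by simp [h3]), Finset.sum_singleton]
  · intro s _ hs
    simp only [Finset.mem_insert, Finset.mem_singleton, not_or] at hs
    exact h0 s hs.1 hs.2

theorem sum5 (f : V → ZMod 2) {y a b c d : V} (h1 : y ≠ a) (h2 : y ≠ b) (h3 : y ≠ c) (h4 : y ≠ d)
    (h5 : a ≠ b) (h6 : a ≠ c) (h7 : a ≠ d) (h8 : b ≠ c) (h9 : b ≠ d) (h10 : c ≠ d)
    (h0 : ∀ s, s ≠ y → s ≠ a → s ≠ b → s ≠ c → s ≠ d → f s = 0) :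
    ∑ s, f s = f y + f a + f b + f c + f d := by
  rw [← Finset.sum_subset (Finset.subset_univ {y, a, b, c, d})]
  · rw [Finset.sum_insert (by simp [h1, h2, h3, h4]), Finset.sum_insert (by simp [h5, h6, h7]),
      Finset.sum_insert (by simp [h8, h9]), Finset.sum_insert (by simp [h10]),
      Finset.sum_singleton]
    ring
  · intro s _ hs
    simp only [Finset.mem_insert, Finset.mem_singleton, not_or] at hs
    exact h0 s hs.1 hs.2.1 hs.2.2.1 hs.2.2.2.1 hs.2.2.2.2

/-- a closed pair -/
structure CP (μ : V → V → ZMod 2) (e a b : V) : Prop where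
  ae : a ≠ e
  be : b ≠ e
  ab : a ≠ b
  eq : μ a a = μ b b
  ne : μ a b = 1 + μ a a

theorem CP.clT {a b : V} (h : CP μ e a b) (hs : ∀ x y, μ x y = μ y x) : ClT μ e {a, b} := by
  refine ⟨by simp [Ne.symm h.ae, Ne.symm h.be], ?_, ?_, ⟨a, by simp⟩⟩
  · rw [Finset.card_pair h.ab]; decide
  · intro t ht
    rw [Finset.sum_pair h.ab]
    rw [Finset.mem_insert, Finset.mem_singleton] at ht
    have k : ∀ x : ZMod 2, x + (1 + x) = 1 ∧ (1 + x) + x = 1 := by decide
    rcases ht with rfl | rfl
    · rw [hs b t, h.ne]; exact (k _).1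
    · rw [h.ne, ← h.eq]; exact (k _).2

/-- the rows of the points of the side of an unsplit closed pair -/
theorem Dat.pair_own (D : Dat L H e μ Y) {a b : V} (h : CP μ e a b)
    (hG : Good L e (U H μ {a, b})) {y : V} (hy : y ∈ Y (U H μ {a, b})) :
    μ y a = 1 + μ a a ∧ μ y b = 1 + μ a a ∧
      ∀ p, U H μ {a, b} p = 0 → p ∉ Y (U H μ {a, b}) → μ y p = μ a p := by
  have hs := D.inv.sym
  have hT := h.clT hs
  have hua := D.U_in hT (t := a) (by simp)
  have hub := D.U_in hT (t := b) (by simp)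
  have huy := (D.sd.zero _ hG y hy)
  have hya : y ≠ a := by rintro rfl; exact hua.2.2 huy.1
  have hyb : y ≠ b := by rintro rfl; exact hub.2.2 huy.1
  have hye : y ≠ e := huy.2
  have hc : μ y a = μ y b := by
    have h1 : (U H μ {a, b} y).1 = 0 := by rw [huy.1]; rfl
    rw [U_fst, Finset.sum_pair h.ab, hs a y, hs b y] at h1
    have : ∀ p q : ZMod 2, p + q = 0 → p = q := by decide
    exact this _ _ h1
  -- from a word with one point in the side
  have fin : ∀ q ∈ L, (q e).1 = 0 → (∀ v, U H μ {a, b} v ≠ 0 → q v = 0 ∨ q v = U H μ {a, b} v) →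
      kf (q y) (om H y) = 1 → (∀ s ∈ Y (U H μ {a, b}), s ≠ y → kf (q s) (om H s) = 0) →
      μ y a = 1 + μ a a ∧ μ y b = 1 + μ a a ∧
      ∀ p, U H μ {a, b} p = 0 → p ∉ Y (U H μ {a, b}) → μ y p = μ a p := by
    intro q hq hqe hle hqy hq0
    obtain ⟨τ, t1, t2, t3, t4, t5⟩ := D.own hT hG hy hq hqe hle hqy hq0
    have t1' : ∀ s, s ≠ y → s ≠ a → s ≠ b → τ s = 0 := fun s h1 h2 h3 => t1 s h1 (by simp [h2, h3])
    have hsum : ∀ p, ∑ s, τ s * μ s p = μ y p + τ a * μ a p + τ b * μ b p := by
      intro p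
      rw [sum3 (fun s => τ s * μ s p) hya hyb h.ab (fun s h1 h2 h3 => by rw [t1' s h1 h2 h3, zero_mul]),
        t2, one_mul]
    rw [sum3 τ hya hyb h.ab t1', t2] at t3
    have e1 := t4 a (by simp)
    have e2 := t4 b (by simp)
    rw [hsum] at e1 e2
    rw [hs b a, h.ne] at e1
    rw [h.ne, ← h.eq] at e2
    have k1 : ∀ m x ta tb : ZMod 2, 1 + ta + tb = 0 → m + ta * x + tb * (1 + x) = ta →
        m = 1 + x := by decide
    have k2 : ∀ m x ta tb : ZMod 2, 1 + ta + tb = 0 → m + ta * (1 + x) + tb * x = tb →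
        m = 1 + x := by decide
    refine ⟨k1 _ _ _ _ t3 e1, k2 _ _ _ _ t3 e2, ?_⟩
    intro p hp hpY
    have e3 := t5 p hp hpY
    rw [hsum] at e3
    have e4 : μ a p + μ b p = 0 := by
      have h1 : (U H μ {a, b} p).1 = 0 := by rw [hp]; rfl
      rwa [U_fst, Finset.sum_pair h.ab] at h1
    have k3 : ∀ m x w ta tb : ZMod 2, 1 + ta + tb = 0 → m + ta * x + tb * w = 0 → x + w = 0 →
        m = x := by decide
    exact k3 _ _ _ _ _ t3 e3 e4
  have hnotin : ∀ s ∈ Y (U H μ {a, b}), s ≠ a ∧ s ≠ b ∧ s ≠ e := by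
    intro s hsY
    have h1 := D.sd.zero _ hG s hsY
    refine ⟨?_, ?_, h1.2⟩
    · rintro rfl; exact hua.2.2 h1.1
    · rintro rfl; exact hub.2.2 h1.1
  by_cases hc0 : μ y a = 0
  · -- the word with the single point `y`
    obtain ⟨q, hq, hqe, hqt, hqf⟩ := D.mkw y a a a 0 0 0
    simp only [zero_mul, add_zero, one_mul] at hqt hqf
    refine fin q hq hqe (D.le_U hT ?_ ?_) ?_ ?_
    · intro t ht
      rw [Finset.mem_insert, Finset.mem_singleton] at ht
      rw [hqt, hqf]
      rcases ht with rfl | rfl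
      · rw [if_neg (Ne.symm hya), if_neg h.ae, hc0, add_zero]
      · rw [if_neg (Ne.symm hyb), if_neg h.be, ← hc, hc0, add_zero]
    · intro v hv hv0
      rw [hqt, if_neg, if_neg, add_zero]
      · rintro rfl; exact hv0 hG.root
      · rintro rfl; exact hv0 huy.1
    · rw [hqt, if_pos rfl, if_neg hye, add_zero]
    · intro s hsY hsy
      rw [hqt, if_neg hsy, if_neg (hnotin s hsY).2.2, add_zero]
  · have hc1 : μ y a = 1 := (zc _).resolve_left hc0
    rcases zc (μ a a) with hα | hα
    · -- the word with the points `y` and `a`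
      obtain ⟨q, hq, hqe, hqt, hqf⟩ := D.mkw y a a a 1 0 0
      simp only [zero_mul, add_zero, one_mul] at hqt hqf
      have h11 : (1 : ZMod 2) + 1 = 0 := by decide
      simp only [h11, zero_mul, add_zero] at hqt
      refine fin q hq hqe (D.le_U hT ?_ ?_) ?_ ?_
      · intro t ht
        rw [Finset.mem_insert, Finset.mem_singleton] at ht
        rw [hqt, hqf]
        rcases ht with rfl | rfl
        · rw [if_neg (Ne.symm hya), if_pos rfl, hc1, hα]; decide
        · rw [if_neg (Ne.symm hyb), if_neg (Ne.symm h.ab), ← hc, hc1, h.ne, hα]; decide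
      · intro v hv hv0
        rw [Finset.mem_insert, Finset.mem_singleton, not_or] at hv
        rw [hqt, if_neg, if_neg hv.1, add_zero]
        rintro rfl; exact hv0 huy.1
      · rw [hqt, if_pos rfl, if_neg hya, add_zero]
      · intro s hsY hsy
        rw [hqt, if_neg hsy, if_neg (hnotin s hsY).1, add_zero]
    · -- the part of the word with the single point `a`
      exfalso
      obtain ⟨q, hq, hqe, hqt, hqf⟩ := D.mkw a a a a 0 0 0
      simp only [zero_mul, add_zero, one_mul] at hqt hqf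
      obtain ⟨τ, t1, t2, t3⟩ := D.own0 hT hG hq hqe (D.le_U hT (by
          intro t ht
          rw [Finset.mem_insert, Finset.mem_singleton] at ht
          rw [hqt, hqf]
          rcases ht with rfl | rfl
          · rw [if_pos rfl, if_neg h.ae, hα, add_zero]
          · rw [if_neg (Ne.symm h.ab), if_neg h.be, h.ne, hα]; decide) (by
          intro v hv hv0
          rw [Finset.mem_insert, Finset.mem_singleton, not_or] at hv
          rw [hqt, if_neg hv.1, if_neg, add_zero]
          rintro rfl; exact hv0 hG.root)) (by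
          intro s hsY
          rw [hqt, if_neg (hnotin s hsY).1, if_neg (hnotin s hsY).2.2, add_zero])
      have t1' : ∀ s, s ≠ a → s ≠ b → τ s = 0 := fun s h2 h3 => t1 s (by simp [h2, h3])
      rw [sum2 τ h.ab t1'] at t2
      have e3 := t3 y hy
      rw [hqf, sum2 (fun s => τ s * μ s y) h.ab (fun s h1 h2 => by rw [t1' s h1 h2, zero_mul]),
        hs a y, hs b y, ← hc, hc1] at e3
      have k : ∀ p q : ZMod 2, p + q = 0 → (1 : ZMod 2) = p * 1 + q * 1 → False := by decide
      exact k _ _ t2 e3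

/-- a closed path -/
structure PP (μ : V → V → ZMod 2) (e a b c d : V) : Prop where
  ae : a ≠ e
  be : b ≠ e
  ce : c ≠ e
  de : d ≠ e
  nab : a ≠ b
  nac : a ≠ c
  nad : a ≠ d
  nbc : b ≠ c
  nbd : b ≠ d
  ncd : c ≠ d
  aa : μ a a = 0
  bb : μ b b = 1
  cc : μ c c = 1
  dd : μ d d = 0
  ab : μ a b = 1
  bc : μ b c = 1
  cd : μ c d = 1
  ac : μ a c = 0
  ad : μ a d = 0
  bd : μ b d = 0

theorem PP.of {a b c d : V} (hμ : IsInv H e μ) (hP : Pool.Agent.H17.P3.IsP4 μ a b c d)
    (ha : μ a a = 0) (hb : μ b b = 1) (hcc : μ c c = 1) (hd : μ d d = 0) : PP μ e a b c d := by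
  have n01 : (0 : ZMod 2) ≠ 1 := by decide
  refine ⟨?_, ?_, ?_, ?_, ?_, ?_, ?_, ?_, ?_, ?_, ha, hb, hcc, hd, hP.ab, hP.bc, hP.cd, hP.ac,
    hP.ad, hP.bd⟩
  · rintro rfl
    have := hP.ab
    rw [hμ.row] at this
    exact n01 this
  · rintro rfl
    have := hP.bc
    rw [hμ.row] at this
    exact n01 this
  · rintro rfl
    have := hP.cd
    rw [hμ.row] at this
    exact n01 this
  · rintro rfl
    have := hP.cd
    rw [hμ.col] at this
    exact n01 this
  · rintro rfl
    rw [ha] at hb
    exact n01 hb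
  · rintro rfl
    rw [ha] at hcc
    exact n01 hcc
  · rintro rfl
    have := hP.cd
    rw [hμ.sym, hP.ac] at this
    exact n01 this
  · rintro rfl
    have := hP.ab
    rw [hP.ac] at this
    exact n01 this
  · rintro rfl
    rw [hd] at hb
    exact n01 hb
  · rintro rfl
    rw [hd] at hcc
    exact n01 hcc

theorem PP.sum {a b c d : V} (h : PP μ e a b c d) (w : V) :
    ∑ s ∈ ({a, b, c, d} : Finset V), μ s w = μ a w + μ b w + μ c w + μ d w := by
  rw [Finset.sum_insert (by simp [h.nab, h.nac, h.nad]), Finset.sum_insert (by simp [h.nbc, h.nbd]),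
    Finset.sum_insert (by simp [h.ncd]), Finset.sum_singleton]
  ring

theorem PP.clT {a b c d : V} (h : PP μ e a b c d) (hs : ∀ x y, μ x y = μ y x) :
    ClT μ e {a, b, c, d} := by
  refine ⟨by simp [Ne.symm h.ae, Ne.symm h.be, Ne.symm h.ce, Ne.symm h.de], ?_, ?_, ⟨a, by simp⟩⟩
  · rw [Finset.card_insert_of_notMem (by simp [h.nab, h.nac, h.nad]),
      Finset.card_insert_of_notMem (by simp [h.nbc, h.nbd]), Finset.card_pair h.ncd]
    decide
  · intro t ht
    rw [h.sum]
    simp only [Finset.mem_insert, Finset.mem_singleton] at ht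
    rcases ht with rfl | rfl | rfl | rfl
    · rw [h.aa, hs b t, hs c t, hs d t, h.ab, h.ac, h.ad]; decide
    · rw [h.ab, h.bb, hs c t, hs d t, h.bc, h.bd]; decide
    · rw [h.ac, h.bc, h.cc, hs d t, h.cd]; decide
    · rw [h.ad, h.bd, h.cd, h.dd]; decide

/-- the rows of the points of the side of an unsplit closed path -/
theorem Dat.path_own (D : Dat L H e μ Y) {a b c d : V} (h : PP μ e a b c d)
    (hG : Good L e (U H μ {a, b, c, d})) {y : V} (hy : y ∈ Y (U H μ {a, b, c, d})) :
    (μ y a ≠ μ y d ∧ μ y b ≠ μ y c) ∧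
      ∀ p, U H μ {a, b, c, d} p = 0 → p ∉ Y (U H μ {a, b, c, d}) →
        μ a p = μ b p → μ a p = μ c p → μ a p = μ d p → μ y p = μ a p := by
  have hs := D.inv.sym
  have hT := h.clT hs
  have hua := D.U_in hT (t := a) (by simp)
  have hub := D.U_in hT (t := b) (by simp)
  have huc := D.U_in hT (t := c) (by simp)
  have hud := D.U_in hT (t := d) (by simp)
  have huy := (D.sd.zero _ hG y hy)
  have hya : y ≠ a := by rintro rfl; exact hua.2.2 huy.1
  have hyb : y ≠ b := by rintro rfl; exact hub.2.2 huy.1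
  have hyc : y ≠ c := by rintro rfl; exact huc.2.2 huy.1
  have hyd : y ≠ d := by rintro rfl; exact hud.2.2 huy.1
  have hye : y ≠ e := huy.2
  have hev : μ y a + μ y b + μ y c + μ y d = 0 := by
    have h1 : (U H μ {a, b, c, d} y).1 = 0 := by rw [huy.1]; rfl
    rwa [U_fst, h.sum, hs a y, hs b y, hs c y, hs d y] at h1
  have hnotin : ∀ s ∈ Y (U H μ {a, b, c, d}), s ≠ a ∧ s ≠ b ∧ s ≠ c ∧ s ≠ d ∧ s ≠ e := by
    intro s hsY
    have h1 := D.sd.zero _ hG s hsY
    refine ⟨?_, ?_, ?_, ?_, h1.2⟩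
    · rintro rfl; exact hua.2.2 h1.1
    · rintro rfl; exact hub.2.2 h1.1
    · rintro rfl; exact huc.2.2 h1.1
    · rintro rfl; exact hud.2.2 h1.1
  obtain ⟨q, hq, hqe, hqt, hqf⟩ := D.mkw y a b c (μ y a + μ y c) (μ y c) (μ y d)
  obtain ⟨τ, t1, t2, t3, t4, t5⟩ := D.own hT hG hy hq hqe (D.le_U hT (by
      intro t ht
      simp only [Finset.mem_insert, Finset.mem_singleton] at ht
      rw [hqt, hqf]
      rcases ht with rfl | rfl | rfl | rfl
      · rw [if_neg (Ne.symm hya), if_pos rfl, if_neg h.nab, if_neg h.nac, if_neg h.ae, h.aa,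
          hs b t, hs c t, h.ab, h.ac]
        revert hev
        generalize μ y t = p1
        generalize μ y b = p2
        generalize μ y c = p3
        generalize μ y d = p4
        revert p1 p2 p3 p4
        decide
      · rw [if_neg (Ne.symm hyb), if_neg (Ne.symm h.nab), if_pos rfl, if_neg h.nbc, if_neg h.be,
          h.ab, h.bb, hs c t, h.bc]
        revert hev
        generalize μ y a = p1
        generalize μ y t = p2
        generalize μ y c = p3
        generalize μ y d = p4
        revert p1 p2 p3 p4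
        decide
      · rw [if_neg (Ne.symm hyc), if_neg (Ne.symm h.nac), if_neg (Ne.symm h.nbc), if_pos rfl,
          if_neg h.ce, h.ac, h.bc, h.cc]
        revert hev
        generalize μ y a = p1
        generalize μ y b = p2
        generalize μ y t = p3
        generalize μ y d = p4
        revert p1 p2 p3 p4
        decide
      · rw [if_neg (Ne.symm hyd), if_neg (Ne.symm h.nad), if_neg (Ne.symm h.nbd),
          if_neg (Ne.symm h.ncd), if_neg h.de, h.ad, h.bd, h.cd]
        revert hev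
        generalize μ y a = p1
        generalize μ y b = p2
        generalize μ y c = p3
        generalize μ y t = p4
        revert p1 p2 p3 p4
        decide) (by
      intro v hv hv0
      simp only [Finset.mem_insert, Finset.mem_singleton, not_or] at hv
      have hvy : v ≠ y := by rintro rfl; exact hv0 huy.1
      have hve : v ≠ e := by rintro rfl; exact hv0 hG.root
      rw [hqt, if_neg hvy, if_neg hv.1, if_neg hv.2.1, if_neg hv.2.2.1, if_neg hve]
      simp)) (by
      rw [hqt, if_pos rfl, if_neg hya, if_neg hyb, if_neg hyc, if_neg hye]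
      simp) (by
      intro s hsY hsy
      have h1 := hnotin s hsY
      rw [hqt, if_neg hsy, if_neg h1.1, if_neg h1.2.1, if_neg h1.2.2.1, if_neg h1.2.2.2.2]
      simp)
  have t1' : ∀ s, s ≠ y → s ≠ a → s ≠ b → s ≠ c → s ≠ d → τ s = 0 :=
    fun s h1 h2 h3 h4 h5 => t1 s h1 (by simp [h2, h3, h4, h5])
  have hsum : ∀ p, ∑ s, τ s * μ s p =
      μ y p + τ a * μ a p + τ b * μ b p + τ c * μ c p + τ d * μ d p := by
    intro p
    rw [sum5 (fun s => τ s * μ s p) hya hyb hyc hyd h.nab h.nac h.nad h.nbc h.nbd h.ncd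
      (fun s h1 h2 h3 h4 h5 => by rw [t1' s h1 h2 h3 h4 h5, zero_mul]), t2, one_mul]
  rw [sum5 τ hya hyb hyc hyd h.nab h.nac h.nad h.nbc h.nbd h.ncd t1', t2] at t3
  have e1 := t4 a (by simp)
  have e2 := t4 b (by simp)
  have e3 := t4 c (by simp)
  have e4 := t4 d (by simp)
  rw [hsum] at e1 e2 e3 e4
  rw [hs b a, hs c a, hs d a, h.aa, h.ab, h.ac, h.ad] at e1
  rw [hs c b, hs d b, h.ab, h.bb, h.bc, h.bd] at e2
  rw [hs d c, h.ac, h.bc, h.cc, h.cd] at e3
  rw [h.ad, h.bd, h.cd, h.dd] at e4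
  simp only [mul_zero, mul_one, add_zero] at e1 e2 e3 e4
  refine ⟨?_, ?_⟩
  · clear t4 t5 t1 t1' hsum hqt hqf
    revert t3 e1 e2 e3 e4
    generalize μ y a = p1
    generalize μ y b = p2
    generalize μ y c = p3
    generalize μ y d = p4
    generalize τ a = q1
    generalize τ b = q2
    generalize τ c = q3
    generalize τ d = q4
    intro k1 k2 k3 k4 k5
    have z2 : ∀ x y : ZMod 2, x + y = y → x = 0 := by decide
    have m1 : p1 = q1 + q2 := by
      have : ∀ p q r : ZMod 2, p + r = q → p = q + r := by decide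
      exact this _ _ _ k2
    have m2 : p2 = q1 + q3 := by
      have : ∀ p q r s : ZMod 2, p + q + r + s = r → p = q + s := by decide
      exact this _ _ _ _ k3
    have m3 : p3 = q2 + q4 := by
      have : ∀ p q r s : ZMod 2, p + q + r + s = r → p = q + s := by decide
      exact this _ _ _ _ k4
    have m4 : p4 = q3 + q4 := by
      have : ∀ p q r : ZMod 2, p + r = q → p = r + q := by decide
      exact this _ _ _ k5
    subst m1 m2 m3 m4
    clear k2 k3 k4 k5
    revert q1 q2 q3 q4
    decide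
  · intro p hp hpY h1 h2 h3
    have e5 := t5 p hp hpY
    rw [hsum, ← h1, ← h2, ← h3] at e5
    clear t4 t5 t1 t1' hsum hqt hqf e1 e2 e3 e4
    revert t3 e5
    generalize μ y p = x
    generalize μ a p = w
    generalize τ a = q1
    generalize τ b = q2
    generalize τ c = q3
    generalize τ d = q4
    revert x w q1 q2 q3 q4
    decide

end

end Pool.Agent.H44.FQ
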