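import Mathlib
import Pool.Agent.H44.FQ.Own
import Pool.Agent.H44.P4.Main
import Pool.Agent.H26.P3.End

set_option autoImplicit false

/-!
Rooted codes with sides (MP_a46c6f_co): closed pairs have midpoints, closed paths have bad points, and the
graph of the code is a tree.
-/

namespace Pool.Agent.H44.FQ

open Pool.Agent.H98.Code Pool.Agent.H17.TR Pool.Agent.H73.P4 Finset

section
variable {V : Type} [Fintype V] [DecidableEq V]
variable {L : Submodule (ZMod 2) (V → K)} {H : V → V → ZMod 2} {e : V} {μ : V → V → ZMod 2}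
variable {Y : (V → K) → Finset V}

theorem Dat.good_or (D : Dat L H e μ Y) {T : Finset V} (hT : ClT μ e T)
    (hk : ∀ k ∈ L, k e = 0 → (∀ v, k v = 0 ∨ k v = U H μ T v) → k = 0 ∨ k = U H μ T) :
    (∃ g, Splits L (U H μ T) g) ∨ Good L e (U H μ T) := by
  by_cases h : ∃ g, Splits L (U H μ T) g
  · exact Or.inl h
  · push Not at h
    exact Or.inr ⟨D.U_mem T, D.U_ne hT, D.U_zfree hT, D.U_root hT, h, hk⟩

/-- a word below the word of a closed set whose letters agree on the set is `0` or everything -/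
theorem Dat.ker_of (D : Dat L H e μ Y) {T : Finset V} (hT : ClT μ e T) {k : V → K} (hk : k ∈ L)
    (hke : k e = 0) (hle : ∀ v, k v = 0 ∨ k v = U H μ T v) {c : ZMod 2}
    (hc : ∀ t ∈ T, kf (k t) (om H t) = c) : k = 0 ∨ k = U H μ T := by
  have hke' : (k e).1 = 0 := by rw [hke]; rfl
  have hout : ∀ v, v ∉ T → kf (k v) (om H v) = 0 := fun v hv => (D.t_of_le hT (hle v)).1 hv
  rcases zc c with h0 | h0
  · left
    apply D.ext hk hke' L.zero_mem rfl
    intro v
    rw [Pi.zero_apply, kf_zero_left]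
    by_cases hv : v ∈ T
    · rw [hc v hv, h0]
    · exact hout v hv
  · right
    apply D.ext hk hke' (D.U_mem T) (by rw [D.U_root hT]; rfl)
    intro v
    rw [D.U_t hT]
    by_cases hv : v ∈ T
    · rw [hc v hv, h0, if_pos hv]
    · rw [hout v hv, if_neg hv]

theorem Dat.pair_or (D : Dat L H e μ Y) {a b : V} (h : CP μ e a b) :
    (∃ g, Splits L (U H μ {a, b}) g) ∨ Good L e (U H μ {a, b}) := by
  have hT := h.clT D.inv.sym
  refine D.good_or hT ?_
  intro k hk hke hle
  obtain ⟨-, r2⟩ := D.repr hk (by rw [hke]; rfl)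
  rw [sum2 _ h.ab (fun s h1 h2 => (D.t_of_le hT (hle s)).1 (by simp [h1, h2]))] at r2
  refine D.ker_of hT hk hke hle (c := kf (k a) (om H a)) ?_
  intro t ht
  rw [Finset.mem_insert, Finset.mem_singleton] at ht
  rcases ht with rfl | rfl
  · rfl
  · have : ∀ p q : ZMod 2, p + q = 0 → q = p := by decide
    exact this _ _ r2

theorem sum4 (f : V → ZMod 2) {a b c d : V}
    (h5 : a ≠ b) (h6 : a ≠ c) (h7 : a ≠ d) (h8 : b ≠ c) (h9 : b ≠ d) (h10 : c ≠ d)
    (h0 : ∀ s, s ≠ a → s ≠ b → s ≠ c → s ≠ d → f s = 0) :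
    ∑ s, f s = f a + f b + f c + f d := by
  rw [← Finset.sum_subset (Finset.subset_univ {a, b, c, d})]
  · rw [Finset.sum_insert (by simp [h5, h6, h7]),
      Finset.sum_insert (by simp [h8, h9]), Finset.sum_insert (by simp [h10]),
      Finset.sum_singleton]
    ring
  · intro s _ hs
    simp only [Finset.mem_insert, Finset.mem_singleton, not_or] at hs
    exact h0 s hs.1 hs.2.1 hs.2.2.1 hs.2.2.2

theorem Dat.path_or (D : Dat L H e μ Y) {a b c d : V} (h : PP μ e a b c d) :
    (∃ g, Splits L (U H μ {a, b, c, d}) g) ∨ Good L e (U H μ {a, b, c, d}) := by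
  have hT := h.clT D.inv.sym
  have hs := D.inv.sym
  refine D.good_or hT ?_
  intro k hk hke hle
  obtain ⟨r1, r2⟩ := D.repr hk (by rw [hke]; rfl)
  have hout : ∀ s, s ≠ a → s ≠ b → s ≠ c → s ≠ d → kf (k s) (om H s) = 0 := fun s h1 h2 h3 h4 =>
    (D.t_of_le hT (hle s)).1 (by simp [h1, h2, h3, h4])
  have hin : ∀ t ∈ ({a, b, c, d} : Finset V), kf (k t) (om H t) = ∑ s, kf (k s) (om H s) * μ s t := by
    intro t ht
    rw [(D.t_of_le hT (hle t)).2 ht, r1 t]
  have hsum : ∀ p, ∑ s, kf (k s) (om H s) * μ s p = kf (k a) (om H a) * μ a p +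
      kf (k b) (om H b) * μ b p + kf (k c) (om H c) * μ c p + kf (k d) (om H d) * μ d p := by
    intro p
    rw [sum4 (fun s => kf (k s) (om H s) * μ s p) h.nab h.nac h.nad h.nbc h.nbd h.ncd
      (fun s h2 h3 h4 h5 => by rw [hout s h2 h3 h4 h5, zero_mul])]
  have e1 := hin a (by simp)
  have e2 := hin b (by simp)
  have e4 := hin d (by simp)
  rw [hsum] at e1 e2 e4
  rw [hs b a, hs c a, hs d a, h.aa, h.ab, h.ac, h.ad] at e1
  rw [hs c b, hs d b, h.ab, h.bb, h.bc, h.bd] at e2
  rw [h.ad, h.bd, h.cd, h.dd] at e4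
  simp only [mul_zero, mul_one, add_zero, zero_add] at e1 e2 e4
  refine D.ker_of hT hk hke hle (c := kf (k a) (om H a)) ?_
  intro t ht
  simp only [Finset.mem_insert, Finset.mem_singleton] at ht
  have k1 : ∀ p q r : ZMod 2, q = p + q + r → r = p := by decide
  rcases ht with rfl | rfl | rfl | rfl
  · rfl
  · exact e1.symm
  · exact k1 _ _ _ e2
  · rw [e4]; exact k1 _ _ _ e2

/-- the midpoint of a closed pair which splits -/
theorem Dat.mid (D : Dat L H e μ Y) {a b : V} (h : CP μ e a b)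
    (hsp : ∃ g, Splits L (U H μ {a, b}) g) :
    ∃ g, μ g g = 1 + μ a a ∧ μ g a = 1 + μ a a ∧ μ g b = 1 + μ a a ∧
      ∀ p, μ a p = μ b p → μ g p = μ a p := by
  have hs := D.inv.sym
  have hT := h.clT hs
  obtain ⟨g, t, ht, k1, k2, k3, k4⟩ := key' D.k0 D.mat D.inv hT.he
    (Or.inl (Finset.card_pair h.ab)) hT.cl hsp
  have hS : ∀ w, ∑ s ∈ ({a, b} : Finset V), μ s w = μ a w + μ b w := fun w =>
    Finset.sum_pair h.ab
  rw [Finset.mem_insert, Finset.mem_singleton] at ht
  have hcomm : ∀ p : ZMod 2, p + 1 = 1 + p := by decide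
  refine ⟨g, ?_⟩
  rcases ht with rfl | rfl
  · have e1 : μ g b = μ t b := k2 b (by simp) (Ne.symm h.ab)
    refine ⟨by rw [k4, hs t g, k3, hcomm], by rw [k3, hcomm], by rw [e1, h.ne], ?_⟩
    intro p hp
    exact k1 p (by rw [hS, hp, two_zero])
  · have e1 : μ g a = μ t a := k2 a (by simp) h.ab
    refine ⟨by rw [k4, hs t g, k3, hcomm, h.eq], by rw [e1, hs t a, h.ne], by rw [k3, hcomm, h.eq], ?_⟩
    intro p hp
    rw [k1 p (by rw [hS, hp, two_zero]), hp]

theorem PP.const_not {a b c d : V} (h : PP μ e a b c d) (hs : ∀ x y, μ x y = μ y x) {p : V}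
    (h1 : μ a p = μ b p) (h2 : μ a p = μ c p) (h3 : μ a p = μ d p) :
    p ∉ ({a, b, c, d} : Finset V) := by
  have n01 : (0 : ZMod 2) ≠ 1 := by decide
  intro hp
  simp only [Finset.mem_insert, Finset.mem_singleton] at hp
  rcases hp with rfl | rfl | rfl | rfl
  · rw [h.aa, hs b p, h.ab] at h1
    exact n01 h1
  · rw [h.ab, hs d p, h.bd] at h3
    exact n01 h3.symm
  · rw [h.ac, h.bc] at h1
    exact n01 h1
  · rw [h.ad, h.cd] at h2
    exact n01 h2

/-- the points of the side of an unsplit closed path are bad -/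
theorem Dat.path_good (D : Dat L H e μ Y) {a b c d : V} (h : PP μ e a b c d)
    (hG : Good L e (U H μ {a, b, c, d})) {y : V} (hy : y ∈ Y (U H μ {a, b, c, d})) :
    Pool.Agent.H17.P3.Bad μ a b c d y ∧
      ∀ p, μ a p = μ b p → μ a p = μ c p → μ a p = μ d p → μ y p = μ a p := by
  have hs := D.inv.sym
  have hT := h.clT hs
  obtain ⟨h1, h2⟩ := D.path_own h hG hy
  refine ⟨h1, ?_⟩
  intro p p1 p2 p3
  refine h2 p ?_ ?_ p1 p2 p3
  · apply lzero _ _ (om_fst H p)
    · rw [U_fst, h.sum, ← p1, ← p2, ← p3, two_zero, zero_add, two_zero]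
    · rw [D.U_t hT, if_neg (h.const_not hs p1 p2 p3)]
  · intro hpY
    obtain ⟨⟨h3, -⟩, -⟩ := D.path_own h hG hpY
    apply h3
    rw [hs p a, hs p d, p3]

/-- the bad point of a closed path which splits -/
theorem Dat.path_split (D : Dat L H e μ Y) {a b c d : V} (h : PP μ e a b c d)
    (hsp : ∃ g, Splits L (U H μ {a, b, c, d}) g) :
    ∃ g, ∃ t ∈ ({a, b, c, d} : Finset V), Pool.Agent.H17.P3.Bad μ a b c d g ∧ μ g g = μ t g ∧
      (∀ p, μ a p = μ b p → μ a p = μ c p → μ a p = μ d p → μ g p = μ t p) ∧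
      ∀ p, μ a p = μ b p → μ a p = μ c p → μ a p = μ d p → μ g p = μ a p := by
  have hs := D.inv.sym
  have hT := h.clT hs
  have hcard : ({a, b, c, d} : Finset V).card = 4 := by
    rw [Finset.card_insert_of_notMem (by simp [h.nab, h.nac, h.nad]),
      Finset.card_insert_of_notMem (by simp [h.nbc, h.nbd]), Finset.card_pair h.ncd]
  obtain ⟨g, t, ht, k1, k2, k3, k4⟩ := key' D.k0 D.mat D.inv hT.he (Or.inr hcard) hT.cl hsp
  have ba : μ b a = 1 := by rw [hs]; exact h.ab
  have cb : μ c b = 1 := by rw [hs]; exact h.bc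
  have dc : μ d c = 1 := by rw [hs]; exact h.cd
  have ca : μ c a = 0 := by rw [hs]; exact h.ac
  have da : μ d a = 0 := by rw [hs]; exact h.ad
  have db : μ d b = 0 := by rw [hs]; exact h.bd
  have hc : ∀ p, μ a p = μ b p → μ a p = μ c p → μ a p = μ d p → μ g p = μ t p := by
    intro p h1 h2 h3
    exact k1 p (by rw [h.sum, ← h1, ← h2, ← h3, two_zero, zero_add, two_zero])
  refine ⟨g, t, ht, ?_, k4, hc, ?_⟩
  · simp only [Finset.mem_insert, Finset.mem_singleton] at ht
    unfold Pool.Agent.H17.P3.Bad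
    rcases ht with rfl | rfl | rfl | rfl
    · rw [k3, k2 b (by simp) (Ne.symm h.nab), k2 c (by simp) (Ne.symm h.nac),
        k2 d (by simp) (Ne.symm h.nad), h.aa, h.ab, h.ac, h.ad]
      decide
    · rw [k3, k2 a (by simp) h.nab, k2 c (by simp) (Ne.symm h.nbc),
        k2 d (by simp) (Ne.symm h.nbd), ba, h.bb, h.bc, h.bd]
      decide
    · rw [k3, k2 a (by simp) h.nac, k2 b (by simp) h.nbc,
        k2 d (by simp) (Ne.symm h.ncd), ca, cb, h.cc, h.cd]
      decide
    · rw [k3, k2 a (by simp) h.nad, k2 b (by simp) h.nbd,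
        k2 c (by simp) h.ncd, da, db, dc, h.dd]
      decide
  · intro p h1 h2 h3
    rw [hc p h1 h2 h3]
    simp only [Finset.mem_insert, Finset.mem_singleton] at ht
    rcases ht with rfl | rfl | rfl | rfl
    · rfl
    · exact h1.symm
    · exact h2.symm
    · exact h3.symm

/-- a splitting point of a word inside the side lies in the side -/
theorem Dat.in_Y (D : Dat L H e μ Y) {a b : V} (h : CP μ e a b)
    (hG : Good L e (U H μ {a, b})) {x g : V} (hx : x ∈ Y (U H μ {a, b})) (h1 : μ g g = μ x g)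
    (h2 : ∀ p, U H μ {a, b} p = 0 → p ∉ Y (U H μ {a, b}) → μ g p = μ x p)
    (h3 : μ g a = μ x a) (h4 : μ g b = μ x b) : g ∈ Y (U H μ {a, b}) := by
  have hs := D.inv.sym
  have hT := h.clT hs
  obtain ⟨o1, o2, o3⟩ := D.pair_own h hG hx
  have k1 : ∀ p : ZMod 2, p ≠ 1 + p := by decide
  have hga : g ≠ a := by
    rintro rfl
    rw [o1] at h3
    exact k1 _ h3
  have hgb : g ≠ b := by
    rintro rfl
    rw [o2, h.eq] at h4
    exact k1 _ h4
  have hux := (D.sd.zero _ hG x hx)
  have hug : U H μ {a, b} g = 0 := by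
    apply lzero _ _ (om_fst H g)
    · rw [U_fst, Finset.sum_pair h.ab, hs a g, hs b g, h3, h4, o1, o2, two_zero]
    · rw [D.U_t hT, if_neg (by simp [hga, hgb])]
  by_contra hgY
  have hgx : g ≠ x := by rintro rfl; exact hgY hx
  have hua := D.U_in hT (t := a) (by simp)
  have hub := D.U_in hT (t := b) (by simp)
  have hxa : x ≠ a := by rintro rfl; exact hua.2.2 hux.1
  have hxb : x ≠ b := by rintro rfl; exact hub.2.2 hux.1
  obtain ⟨k, hk, hke, hkt, hkf⟩ := D.mkw x g g g 1 0 0
  have h11 : (1 : ZMod 2) + 1 = 0 := by decide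
  simp only [zero_mul, add_zero, one_mul, h11] at hkt hkf
  have hle : ∀ v, U H μ {a, b} v ≠ 0 → k v = 0 ∨ k v = U H μ {a, b} v := by
    refine D.le_U hT ?_ ?_
    · intro t ht
      rw [Finset.mem_insert, Finset.mem_singleton] at ht
      rw [hkt, hkf]
      rcases ht with rfl | rfl
      · rw [if_neg (Ne.symm hxa), if_neg (Ne.symm hga), h3, add_zero, two_zero]
      · rw [if_neg (Ne.symm hxb), if_neg (Ne.symm hgb), h4, add_zero, two_zero]
    · intro v hv hv0
      rw [hkt, if_neg, if_neg, add_zero]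
      · rintro rfl; exact hv0 hug
      · rintro rfl; exact hv0 hux.1
  obtain ⟨k', hk', p1, p2, p3⟩ := D.sd.part _ hG k hk hke hle
  apply hG.unsplit g
  have hkg : k g = z := by
    apply lz _ _ (om_fst H g)
    · rw [hkf, h1, two_zero]
    · rw [hkt, if_neg hgx, if_pos rfl, zero_add]
  have hkk : (k + k') g = z := by rw [Pi.add_apply, hkg, p2 g hug hgY, add_zero]
  refine ⟨k + k', L.add_mem hk hk', U H μ {a, b} + (k + k'), L.add_mem (D.U_mem _)
    (L.add_mem hk hk'), ?_, hkk, ?_, ?_⟩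
  · funext v
    show (k v + k' v) + (U H μ {a, b} v + (k v + k' v)) = U H μ {a, b} v
    generalize k v + k' v = p
    generalize U H μ {a, b} v = q
    revert p q
    decide
  · rw [Pi.add_apply, hug, zero_add, hkk]
  · intro v hvg
    by_cases hv0 : U H μ {a, b} v = 0
    · left
      by_cases hvY : v ∈ Y (U H μ {a, b})
      · rw [Pi.add_apply, p1 v hvY, kself]
      · have hvx : v ≠ x := by rintro rfl; exact hvY hx
        have hkv : k v = 0 := by
          apply lzero _ _ (om_fst H v)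
          · rw [hkf, h2 v hv0 hvY, two_zero]
          · rw [hkt, if_neg hvx, if_neg hvg, add_zero]
        rw [Pi.add_apply, p2 v hv0 hvY, hkv, add_zero]
    · have e1 := hle v hv0
      have e2 := p3 v hv0
      rw [Pi.add_apply, Pi.add_apply, Pi.add_apply]
      revert e1 e2
      generalize k v = p
      generalize k' v = q
      generalize U H μ {a, b} v = r
      revert p q r
      decide

/-- the side of a word inside the side -/
theorem Dat.sub_Y (D : Dat L H e μ Y) {a b : V} (h : CP μ e a b)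
    (hG : Good L e (U H μ {a, b})) {T : Finset V} (hT' : ClT μ e T) (hG' : Good L e (U H μ T))
    (hsub : ∀ t ∈ T, t ∈ Y (U H μ {a, b}) ∨ t = a)
    (hR : ∀ p, U H μ {a, b} p = 0 → p ∉ Y (U H μ {a, b}) → ∑ s ∈ T, μ s p = 0)
    (hab : ∀ t ∈ ({a, b} : Finset V), (if t ∈ T then (1 : ZMod 2) else 0) = ∑ s ∈ T, μ s t) :
    Y (U H μ T) ⊆ Y (U H μ {a, b}) := by
  have hs := D.inv.sym
  have hT := h.clT hs
  have hua := D.U_in hT (t := a) (by simp)
  refine D.sd.mono _ _ hG hG' ?_ (D.le_U hT ?_ ?_)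
  · intro p hp hpY
    apply lzero _ _ (om_fst H p)
    · rw [U_fst]; exact hR p hp hpY
    · rw [D.U_t hT', if_neg]
      intro hpT
      rcases hsub p hpT with h1 | h1
      · exact hpY h1
      · rw [h1] at hp; exact hua.2.2 hp
  · intro t ht
    rw [D.U_t hT', U_fst]
    exact hab t ht
  · intro v hv hv0
    rw [D.U_t hT', if_neg]
    intro hvT
    rcases hsub v hvT with h1 | h1
    · exact hv0 (D.sd.zero _ hG v h1).1
    · exact hv (by rw [h1]; simp)

end

end Pool.Agent.H44.FQ
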