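import Mathlib
import Pool.Agent.H44.FQ.Main

set_option autoImplicit false

/-!
Rooted codes with sides (MP_a46c6f_co): the graph of the code is a tree.
-/

namespace Pool.Agent.H44.FQ

open Pool.Agent.H98.Code Pool.Agent.H17.TR Pool.Agent.H73.P4 Finset

section
variable {V : Type} [Fintype V] [DecidableEq V]
variable {L : Submodule (ZMod 2) (V → K)} {H : V → V → ZMod 2} {e : V} {μ : V → V → ZMod 2}
variable {Y : (V → K) → Finset V}

theorem CP.of {u v : V} (hμ : IsInv H e μ) (h1 : μ u u = μ v v) (h2 : μ u v ≠ μ u u) :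
    CP μ e u v := by
  refine ⟨?_, ?_, ?_, h1, ?_⟩
  · rintro rfl
    apply h2
    rw [hμ.row, hμ.row]
  · rintro rfl
    apply h2
    rw [h1, hμ.col, hμ.row]
  · rintro rfl
    exact h2 rfl
  · have : ∀ p q : ZMod 2, p ≠ q → p = 1 + q := by decide
    exact this _ _ h2

/-- **every closed pair splits** -/
theorem Dat.no_good (D : Dat L H e μ Y) : ∀ (n : ℕ) (a b : V), CP μ e a b →
    Good L e (U H μ {a, b}) → (Y (U H μ {a, b})).card = n → False := by
  intro n
  induction n using Nat.strong_induction_on with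
  | _ n ih =>
    intro a b h hG hn
    have hs := D.inv.sym
    have hT := h.clT hs
    set YY := Y (U H μ {a, b}) with hYY
    have hua := D.U_in hT (t := a) (by simp)
    have hub := D.U_in hT (t := b) (by simp)
    have own : ∀ y ∈ YY, μ y a = 1 + μ a a ∧ μ y b = 1 + μ a a ∧
        ∀ p, U H μ {a, b} p = 0 → p ∉ YY → μ y p = μ a p := fun y hy => D.pair_own h hG hy
    have hz : ∀ y ∈ YY, U H μ {a, b} y = 0 ∧ y ≠ e := fun y hy => D.sd.zero _ hG y hy
    have hya : ∀ y ∈ YY, y ≠ a := by
      rintro y hy rfl; exact hua.2.2 (hz y hy).1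
    have hyb : ∀ y ∈ YY, y ≠ b := by
      rintro y hy rfl; exact hub.2.2 (hz y hy).1
    have hRab : ∀ p, U H μ {a, b} p = 0 → μ a p = μ b p := by
      intro p hp
      have h1 : (U H μ {a, b} p).1 = 0 := by rw [hp]; rfl
      rw [U_fst, Finset.sum_pair h.ab] at h1
      have : ∀ p q : ZMod 2, p + q = 0 → p = q := by decide
      exact this _ _ h1
    -- a good word inside the side gives a smaller side
    have small : ∀ T : Finset V, ClT μ e T → Good L e (U H μ T) → T ⊆ YY →
        (∀ p, U H μ {a, b} p = 0 → p ∉ YY → ∑ s ∈ T, μ s p = 0) → ∑ s ∈ T, μ s a = 0 →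
        ∑ s ∈ T, μ s b = 0 → Y (U H μ T) ⊂ YY := by
      intro T hT' hG' hsub hR ha hb
      have h1 : Y (U H μ T) ⊆ YY := by
        refine D.sub_Y h hG hT' hG' (fun t ht => Or.inl (hsub ht)) hR ?_
        intro t ht
        rw [Finset.mem_insert, Finset.mem_singleton] at ht
        rcases ht with rfl | rfl
        · rw [ha, if_neg (fun hh => hya _ (hsub hh) rfl)]
        · rw [hb, if_neg (fun hh => hyb _ (hsub hh) rfl)]
      refine ⟨h1, ?_⟩
      intro h2
      obtain ⟨t, ht⟩ := hT'.ne
      exact (D.U_in hT' ht).2.2 (D.sd.zero _ hG' t (h2 (hsub ht))).1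
    -- closed pairs in the side
    have pairY : ∀ x ∈ YY, ∀ x' ∈ YY, μ x x = μ x' x' → μ x x' ≠ μ x x →
        ∃ g ∈ YY, μ g g ≠ μ x x ∧ μ g x = μ g g ∧ μ g x' = μ g g ∧
          ∀ p, μ x p = μ x' p → μ g p = μ x p := by
      intro x hx x' hx' e1 e2
      have hc : CP μ e x x' := CP.of D.inv e1 e2
      have hxp : ∀ p, U H μ {a, b} p = 0 → p ∉ YY → μ x p = μ x' p := by
        intro p hp hpY
        rw [(own x hx).2.2 p hp hpY, (own x' hx').2.2 p hp hpY]
      have hxa : μ x a = μ x' a := by rw [(own x hx).1, (own x' hx').1]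
      have hxb : μ x b = μ x' b := by rw [(own x hx).2.1, (own x' hx').2.1]
      rcases D.pair_or hc with hsp | hG'
      · obtain ⟨g, g1, g2, g3, g4⟩ := D.mid hc hsp
        have hg : g ∈ YY := D.in_Y h hG hx (by rw [g1, hs x g, g2])
          (fun p hp hpY => g4 p (hxp p hp hpY)) (g4 a hxa) (g4 b hxb)
        refine ⟨g, hg, ?_, by rw [g1, g2], by rw [g1, g3], g4⟩
        rw [g1]
        have : ∀ p : ZMod 2, 1 + p ≠ p := by decide
        exact this _
      · exfalso
        have h1 := small {x, x'} (hc.clT hs) hG' (by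
            intro t ht
            rw [Finset.mem_insert, Finset.mem_singleton] at ht
            rcases ht with rfl | rfl
            · exact hx
            · exact hx') (fun p hp hpY => by rw [Finset.sum_pair hc.ab, hxp p hp hpY, two_zero])
          (by rw [Finset.sum_pair hc.ab, hxa, two_zero])
          (by rw [Finset.sum_pair hc.ab, hxb, two_zero])
        exact ih _ (by rw [← hn]; exact Finset.card_lt_card h1) x x' hc hG' rfl
    -- no path in the side
    have noP : ∀ x1 x2 x3 x4 : {y // y ∈ YY},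
        ¬ Pool.Agent.H17.P3.IsP4 (fun x y : {y // y ∈ YY} => μ x.1 y.1) x1 x2 x3 x4 := by
      refine Pool.Agent.H44.P4.p3 {y // y ∈ YY} (fun x y => μ x.1 y.1) (fun x y => hs _ _) ?_ ?_
      · intro x x' e1 e2
        obtain ⟨g, hg, g1, g2, g3, g4⟩ := pairY x.1 x.2 x'.1 x'.2 e1 e2
        exact ⟨⟨g, hg⟩, g1, g2, g3, fun p hp => g4 p.1 hp⟩
      · intro x1 x2 x3 x4 hP l1 l2 l3 l4
        have hP' : Pool.Agent.H17.P3.IsP4 μ x1.1 x2.1 x3.1 x4.1 :=
          ⟨hP.ab, hP.bc, hP.cd, hP.ac, hP.ad, hP.bd⟩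
        have hpp : PP μ e x1.1 x2.1 x3.1 x4.1 := PP.of D.inv hP' l1 l2 l3 l4
        have hR : ∀ p, U H μ {a, b} p = 0 → p ∉ YY →
            μ x1.1 p = μ x2.1 p ∧ μ x1.1 p = μ x3.1 p ∧ μ x1.1 p = μ x4.1 p := by
          intro p hp hpY
          rw [(own _ x1.2).2.2 p hp hpY, (own _ x2.2).2.2 p hp hpY, (own _ x3.2).2.2 p hp hpY,
            (own _ x4.2).2.2 p hp hpY]
          exact ⟨rfl, rfl, rfl⟩
        have hRa : μ x1.1 a = μ x2.1 a ∧ μ x1.1 a = μ x3.1 a ∧ μ x1.1 a = μ x4.1 a := by
          rw [(own _ x1.2).1, (own _ x2.2).1, (own _ x3.2).1, (own _ x4.2).1]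
          exact ⟨rfl, rfl, rfl⟩
        have hRb : μ x1.1 b = μ x2.1 b ∧ μ x1.1 b = μ x3.1 b ∧ μ x1.1 b = μ x4.1 b := by
          rw [(own _ x1.2).2.1, (own _ x2.2).2.1, (own _ x3.2).2.1, (own _ x4.2).2.1]
          exact ⟨rfl, rfl, rfl⟩
        have hsum0 : ∀ p, (μ x1.1 p = μ x2.1 p ∧ μ x1.1 p = μ x3.1 p ∧ μ x1.1 p = μ x4.1 p) →
            ∑ s ∈ ({x1.1, x2.1, x3.1, x4.1} : Finset V), μ s p = 0 := by
          rintro p ⟨q1, q2, q3⟩
          rw [hpp.sum, ← q1, ← q2, ← q3, two_zero, zero_add, two_zero]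
        rcases D.path_or hpp with hsp | hG'
        · obtain ⟨g, t, ht, g1, g2, g3, g4⟩ := D.path_split hpp hsp
          have htY : t ∈ YY := by
            simp only [Finset.mem_insert, Finset.mem_singleton] at ht
            rcases ht with rfl | rfl | rfl | rfl
            · exact x1.2
            · exact x2.2
            · exact x3.2
            · exact x4.2
          have hg : g ∈ YY := D.in_Y h hG htY g2
            (fun p hp hpY => g3 p (hR p hp hpY).1 (hR p hp hpY).2.1 (hR p hp hpY).2.2)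
            (g3 a hRa.1 hRa.2.1 hRa.2.2) (g3 b hRb.1 hRb.2.1 hRb.2.2)
          exact ⟨⟨g, hg⟩, g1, fun p p1 p2 p3 => g4 p.1 p1 p2 p3⟩
        · have h1 := small _ (hpp.clT hs) hG' (by
              intro t ht
              simp only [Finset.mem_insert, Finset.mem_singleton] at ht
              rcases ht with rfl | rfl | rfl | rfl
              · exact x1.2
              · exact x2.2
              · exact x3.2
              · exact x4.2) (fun p hp hpY => hsum0 p (hR p hp hpY)) (hsum0 a hRa) (hsum0 b hRb)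
          obtain ⟨y, hy⟩ := D.sd.nonempty _ hG'
          obtain ⟨g1, g2⟩ := D.path_good hpp hG' hy
          exact ⟨⟨y, h1.1 hy⟩, g1, fun p p1 p2 p3 => g2 p.1 p1 p2 p3⟩
    -- a constant row
    have hne : YY.Nonempty := D.sd.nonempty _ hG
    obtain ⟨r, hr, hrow⟩ := Pool.Agent.H44.P4.const_vertex _ (Pool.Agent.H44.P4.Rel μ)
      (fun x y hh => by
        unfold Pool.Agent.H44.P4.Rel at hh ⊢
        rw [hs]
        exact hh) YY rfl hne (by
        rintro x1 h1 x2 h2 x3 h3 x4 h4 ⟨q1, q2, q3, q4, q5, q6⟩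
        exact noP ⟨x1, h1⟩ ⟨x2, h2⟩ ⟨x3, h3⟩ ⟨x4, h4⟩
          ⟨q1, q2, q3, (Pool.Agent.H44.P4.not_rel _ _ _).1 q4, (Pool.Agent.H44.P4.not_rel _ _ _).1 q5,
            (Pool.Agent.H44.P4.not_rel _ _ _).1 q6⟩) (by
        intro x hx x' hx' e1 e2
        obtain ⟨g, hg, g1, g2, g3, g4⟩ := pairY x hx x' hx' (Pool.Agent.H44.P4.eq_of_rel e1)
          (Pool.Agent.H44.P4.ne_of_rel e2)
        have e3 : (Pool.Agent.H44.P4.Rel μ g g ↔ ¬ Pool.Agent.H44.P4.Rel μ x x) :=
          Pool.Agent.H44.P4.rel_of_ne g1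
        refine ⟨g, hg, e3, ?_, ?_, ?_⟩
        · rw [Pool.Agent.H44.P4.rel_congr g2]
          exact e3
        · rw [Pool.Agent.H44.P4.rel_congr g3]
          exact e3
        · intro y _ hy
          exact Pool.Agent.H44.P4.rel_congr (g4 y (Pool.Agent.H44.P4.eq_of_rel hy)))
    have hlam : ∃ l : ZMod 2, ∀ y ∈ YY, μ r y = l := by
      rcases hrow with hrow | hrow
      · exact ⟨0, fun y hy => (Pool.Agent.H44.P4.not_rel _ _ _).1 (hrow y hy)⟩
      · exact ⟨1, fun y hy => hrow y hy⟩
    obtain ⟨l, hl⟩ := hlam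
    obtain ⟨or1, or2, or3⟩ := own r hr
    have hra := hya r hr
    have hrb := hyb r hr
    have hre := (hz r hr).2
    have hur := (hz r hr).1
    have hcase : ∀ p q : ZMod 2, p = 1 + q ∨ p = q := by decide
    have k1 : ∀ p : ZMod 2, p ≠ 1 + p := by decide
    have k2 : ∀ p : ZMod 2, (1 + p) + p = 1 := by decide
    have k3 : ∀ p : ZMod 2, p + (1 + p) = 1 := by decide
    rcases hcase l (μ a a) with hlc | hlc
    · -- the word of `a` splits at `r`
      apply hG.unsplit r
      obtain ⟨k, hk, hke, hkt, hkf⟩ := D.mkw r a a a 1 0 0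
      have h11 : (1 : ZMod 2) + 1 = 0 := by decide
      simp only [zero_mul, add_zero, one_mul, h11] at hkt hkf
      have hle : ∀ v, U H μ {a, b} v ≠ 0 → k v = 0 ∨ k v = U H μ {a, b} v := by
        refine D.le_U hT ?_ ?_
        · intro t ht
          rw [Finset.mem_insert, Finset.mem_singleton] at ht
          rw [hkt, hkf]
          rcases ht with rfl | rfl
          · rw [if_neg (Ne.symm hra), if_pos rfl, or1, k2, zero_add]
          · rw [if_neg (Ne.symm hrb), if_neg (Ne.symm h.ab), or2, h.ne, add_zero, two_zero]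
        · intro v hv hv0
          rw [Finset.mem_insert, Finset.mem_singleton, not_or] at hv
          rw [hkt, if_neg, if_neg hv.1, add_zero]
          rintro rfl; exact hv0 hur
      have hkr : k r = z := by
        apply lz _ _ (om_fst H r)
        · rw [hkf, hl r hr, hs a r, or1, hlc, two_zero]
        · rw [hkt, if_pos rfl, if_neg hra, add_zero]
      refine ⟨k, hk, U H μ {a, b} + k, L.add_mem (D.U_mem _) hk, ?_, hkr, ?_, ?_⟩
      · funext v
        show k v + (U H μ {a, b} v + k v) = U H μ {a, b} v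
        generalize k v = p
        generalize U H μ {a, b} v = q
        revert p q
        decide
      · rw [Pi.add_apply, hur, zero_add, hkr]
      · intro v hvr
        by_cases hv0 : U H μ {a, b} v = 0
        · left
          have hva : v ≠ a := by rintro rfl; exact hua.2.2 hv0
          apply lzero _ _ (om_fst H v)
          · rw [hkf]
            by_cases hvY : v ∈ YY
            · rw [hl v hvY, hs a v, (own v hvY).1, hlc, two_zero]
            · rw [or3 v hv0 hvY, two_zero]
          · rw [hkt, if_neg hvr, if_neg hva, add_zero]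
        · have e1 := hle v hv0
          rw [Pi.add_apply]
          revert e1
          generalize k v = p
          generalize U H μ {a, b} v = q
          revert p q
          decide
    · -- the closed pair `r`, `a`
      have hc : CP μ e r a := by
        refine ⟨hre, h.ae, hra, ?_, ?_⟩
        · rw [hl r hr, hlc]
        · rw [or1, hl r hr, hlc]
      rcases D.pair_or hc with hsp | hG'
      · obtain ⟨g, g1, g2, g3, g4⟩ := D.mid hc hsp
        have hrr : μ r r = μ a a := by rw [hl r hr, hlc]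
        have hg : g ∈ YY := D.in_Y h hG hr (by rw [g1, hs r g, g2])
          (fun p hp hpY => g4 p (or3 p hp hpY)) (by rw [g3, or1, hrr])
          (g4 b (by rw [or2, h.ne]))
        have h1 := hl g hg
        rw [hs r g, g2, hrr, hlc] at h1
        exact k1 _ h1.symm
      · have hT' := hc.clT hs
        have hsub : Y (U H μ {r, a}) ⊆ YY := by
          refine D.sub_Y h hG hT' hG' ?_ ?_ ?_
          · intro t ht
            rw [Finset.mem_insert, Finset.mem_singleton] at ht
            rcases ht with rfl | rfl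
            · exact Or.inl hr
            · exact Or.inr rfl
          · intro p hp hpY
            rw [Finset.sum_pair hc.ab, or3 p hp hpY, two_zero]
          · intro t ht
            rw [Finset.sum_pair hc.ab]
            rw [Finset.mem_insert, Finset.mem_singleton] at ht
            rcases ht with rfl | rfl
            · rw [if_pos (by simp), or1, k2]
            · rw [if_neg (by simp [Ne.symm hrb, Ne.symm h.ab]), or2, h.ne, two_zero]
        obtain ⟨y, hy⟩ := D.sd.nonempty _ hG'
        have hyY := hsub hy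
        have h1 := (D.sd.zero _ hG' y hy).1
        have h2 : (U H μ {r, a} y).1 = 0 := by rw [h1]; rfl
        rw [U_fst, Finset.sum_pair hc.ab, hl y hyY, hs a y, (own y hyY).1, hlc, k3] at h2
        exact absurd h2 (by decide)

theorem Dat.pairs (D : Dat L H e μ Y) : Pool.Agent.H17.P3.Pairs μ := by
  intro u v h1 h2
  have hc := CP.of D.inv h1 h2
  rcases D.pair_or hc with hsp | hG
  · obtain ⟨g, g1, g2, g3, g4⟩ := D.mid hc hsp
    refine ⟨g, ?_, by rw [g1, g2], by rw [g1, g3], g4⟩
    rw [g1]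
    have : ∀ p : ZMod 2, 1 + p ≠ p := by decide
    exact this _
  · exact (D.no_good _ u v hc hG rfl).elim

theorem Dat.p4split (D : Dat L H e μ Y) : Pool.Agent.H17.P3.P4Split μ := by
  intro a b c d hP l1 l2 l3 l4
  have hpp := PP.of D.inv hP l1 l2 l3 l4
  rcases D.path_or hpp with hsp | hG
  · obtain ⟨g, t, ht, g1, g2, g3, g4⟩ := D.path_split hpp hsp
    exact ⟨g, g1, g4⟩
  · obtain ⟨y, hy⟩ := D.sd.nonempty _ hG
    obtain ⟨g1, g2⟩ := D.path_good hpp hG hy
    exact ⟨y, g1, g2⟩

end

/-- **the graph of a rooted code with sides is a tree** -/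
theorem tree_of_sided (X : Type) [Fintype X] [DecidableEq X] (B : Submodule (ZMod 2) (X → K)) (r : X)
    (Y : (X → K) → Finset X) (hB : IsCode B) (hz : NoZ B) (hS : Sided B r Y) :
    (graph B).IsTree := by
  obtain ⟨H, hs, hm⟩ := exists_matrix hB hz
  have hH : IsMat B H := ⟨hs, hm⟩
  have hH' : Pool.Agent.H32.AA.IsMat B H := ⟨hs, hm⟩
  have heq : graph B = GrH H := by
    ext v w
    rw [Pool.Agent.H32.AA.adj_iff hH', hH.adj]
  have hk := ker0_of hS hH
  obtain ⟨μ, hμ⟩ := exists_mu' hk hH
  have D : Dat B H r μ Y := ⟨hH, hμ, hk, hS⟩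
  rw [heq]
  refine Pool.Agent.H26.P3.tree_end X r H μ hs hμ.sym hμ.row ?_ D.pairs
    (Pool.Agent.H44.P4.p3 X μ hμ.sym D.pairs D.p4split)
  intro u hu v
  by_cases hv : v = r
  · rw [hv, if_neg hu]
    refine Finset.sum_eq_zero fun w _ => ?_
    rw [hμ.col, hμ.col, add_zero, mul_zero]
  · have h5 := hμ.inv v hv u hu
    unfold lap at h5
    rw [← h5]
    refine Finset.sum_congr rfl fun w _ => ?_
    rw [hμ.sym u v, hμ.sym w v]
    ring

end Pool.Agent.H44.FQ
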